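import Pool.Agent.Helper79.PcpStage

/-! # Undecidability of the elementary correspondence problem -/

set_option autoImplicit false

namespace Pool.Agent.Helper79.Pcp

open Turing PartrecToTM2

lemma trNat_step (n : ℕ) (hn : n ≠ 0) :
    trNat n = (cond n.bodd Γ'.bit1 Γ'.bit0) :: trNat n.div2 := by
  have h0 : ∀ m : ℕ, trNat m = trNum (Num.ofNat' m) := fun m => by rw [Num.ofNat'_eq]; rfl
  have h1 : Num.ofNat' n = cond n.bodd Num.bit1 Num.bit0 (Num.ofNat' n.div2) := by
    conv_lhs => rw [← Nat.bit_bodd_div2 n]
    rw [Num.ofNat'_bit]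
  have h2 : Nat.bit n.bodd n.div2 = n := Nat.bit_bodd_div2 n
  rw [h0, h0, h1]
  cases hb : n.bodd
  · rcases hm : Num.ofNat' n.div2 with _ | m
    · exfalso
      rw [Num.ofNat'_eq] at hm
      have h3 : ((n.div2 : ℕ) : Num) = ((0 : ℕ) : Num) := by rw [hm]; rfl
      rw [Num.of_nat_inj] at h3
      rw [hb, h3] at h2
      exact hn (by rw [← h2]; rfl)
    · rfl
  · rcases hm : Num.ofNat' n.div2 with _ | m
    · rfl
    · rfl

lemma primrec_trNat (ψ : Γ' → ℕ) : Primrec fun n => (trNat n).map ψ := by
  have h : Primrec₂ (fun (_ : Unit) (n : ℕ) => (trNat n).map ψ) := by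
    refine Primrec.nat_strong_rec _ (g := fun _ l => some (if l.length = 0 then [] else
      (cond l.length.bodd (ψ Γ'.bit1) (ψ Γ'.bit0)) :: (l.getD l.length.div2 []))) ?_ ?_
    · have hl : Primrec fun p : Unit × List (List ℕ) => p.2.length :=
        Primrec.list_length.comp (Primrec.snd (α := Unit) (β := List (List ℕ)))
      have h1 : PrimrecPred fun p : Unit × List (List ℕ) => p.2.length = 0 :=
        Primrec.eq.comp hl (Primrec.const 0)
      have h2 : Primrec fun p : Unit × List (List ℕ) =>
          (cond p.2.length.bodd (ψ Γ'.bit1) (ψ Γ'.bit0)) :: (p.2.getD p.2.length.div2 []) := by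
        refine Primrec.list_cons.comp ?_ ?_
        · exact Primrec.cond (Primrec.nat_bodd.comp hl) (Primrec.const _) (Primrec.const _)
        · exact (Primrec.list_getD []).comp Primrec.snd (Primrec.nat_div2.comp hl)
      have h3 : Primrec fun p : Unit × List (List ℕ) => (if p.2.length = 0 then [] else
          (cond p.2.length.bodd (ψ Γ'.bit1) (ψ Γ'.bit0)) :: (p.2.getD p.2.length.div2 [])) :=
        Primrec.ite h1 (Primrec.const []) h2
      exact (Primrec.option_some.comp h3).to₂
    · intro _ n
      simp only [List.length_map, List.length_range]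
      by_cases hn : n = 0
      · subst hn
        simp
      · rw [if_neg hn]
        have h1 : n.div2 < n := by
          rw [Nat.div2_val]
          omega
        rw [List.getD_eq_getElem _ _ (by simpa using h1)]
        simp only [List.getElem_map, List.getElem_range]
        rw [trNat_step n hn]
        cases n.bodd <;> rfl
  exact h.comp (Primrec.const ()) Primrec.id

/-- conversion of index types -/
lemma sol_convert {I X : Type} {N : ℕ} (e : Fin N ≃ I) (A B : I → List X) (enc : X → ℕ)
    (henc : Function.Injective enc) :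
    (∃ w : List ℕ, w ≠ [] ∧ (∀ i ∈ w, i < (List.ofFn fun i => (A (e i)).map enc).length) ∧
      (w.map fun i => (List.ofFn fun i => (A (e i)).map enc).getD i []).flatten =
      (w.map fun i => (List.ofFn fun i => (B (e i)).map enc).getD i []).flatten) ↔
    ∃ w : List I, w ≠ [] ∧ (w.map A).flatten = (w.map B).flatten := by
  have hget : ∀ (C : I → List X) (x : I),
      (List.ofFn fun i => (C (e i)).map enc).getD (e.symm x) [] = (C x).map enc := by
    intro C x
    rw [List.getD_eq_getElem _ _ (by simp)]
    simp
  have hmap : ∀ (C : I → List X) (w : List I),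
      ((w.map fun x => ((e.symm x : Fin N) : ℕ)).map
        fun i => (List.ofFn fun i => (C (e i)).map enc).getD i []).flatten =
      ((w.map C).flatten).map enc := by
    intro C w
    rw [List.map_map, List.map_flatten, List.map_map]
    congr 1
    apply List.map_congr_left
    intro x _
    exact hget C x
  constructor
  · rintro ⟨w, hw, hlt, heq⟩
    simp only [List.length_ofFn] at hlt
    have hex : ∃ w' : List I, w = w'.map fun x => ((e.symm x : Fin N) : ℕ) := by
      clear hw heq
      induction w with
      | nil => exact ⟨[], rfl⟩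
      | cons a w ih =>
        obtain ⟨w', hw'⟩ := ih (fun i hi => hlt i (List.mem_cons_of_mem _ hi))
        have ha := hlt a List.mem_cons_self
        refine ⟨e ⟨a, ha⟩ :: w', ?_⟩
        rw [List.map_cons, ← hw', Equiv.symm_apply_apply]
    obtain ⟨w', rfl⟩ := hex
    rw [hmap, hmap] at heq
    exact ⟨w', by simpa using hw, (List.map_injective_iff.2 henc) heq⟩
  · rintro ⟨w, hw, heq⟩
    refine ⟨w.map fun x => ((e.symm x : Fin N) : ℕ), by simpa using hw, ?_, ?_⟩
    · intro i hi
      obtain ⟨x, _, rfl⟩ := List.mem_map.1 hi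
      simp
    · rw [hmap, hmap, heq]

/-- conversion of elementarity -/
lemma elem_convert {I X : Type} {N : ℕ} (e : Fin N ≃ I) (A : I → List X) (enc : X → ℕ)
    (henc : Function.Injective enc) (hA : Layer.Priv A) :
    ∀ m : ℕ, m < (List.ofFn fun i => (A (e i)).map enc).length → ∀ f : ℕ → List (Fin m),
      ∀ k : Fin m → List ℕ,
      ¬ ∀ i : ℕ, i < (List.ofFn fun i => (A (e i)).map enc).length →
        ((f i).map k).flatten = (List.ofFn fun i => (A (e i)).map enc).getD i [] := by
  obtain ⟨p, hp1, hp2⟩ := hA
  have hget : ∀ (i : ℕ) (hi : i < N),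
      (List.ofFn fun i => (A (e i)).map enc).getD i [] = (A (e ⟨i, hi⟩)).map enc := by
    intro i hi
    rw [List.getD_eq_getElem _ _ (by simpa using hi)]
    simp
  refine elementary_of_private _ (fun i => if h : i < N then enc (p (e ⟨i, h⟩)) else 0) ?_ ?_
  · intro i hi
    rw [List.length_ofFn] at hi
    rw [dif_pos hi, hget i hi]
    exact List.mem_map.2 ⟨_, hp1 _, rfl⟩
  · intro i hi j hj hij
    rw [List.length_ofFn] at hi hj
    rw [dif_pos hi, dif_pos hj, hget i hi, hget j hj]
    rintro ⟨h1, h2⟩
    obtain ⟨a, ha, ha'⟩ := List.mem_map.1 h1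
    obtain ⟨b, hb, hb'⟩ := List.mem_map.1 h2
    rw [henc ha'] at ha
    rw [henc hb'] at hb
    refine hp2 (e ⟨i, hi⟩) (e ⟨j, hj⟩) (fun h => hij ?_) ⟨ha, hb⟩
    have := e.injective h
    simpa using this

lemma phase_pos {Q Γ ρ : Type} (P : ρ → Pat Q Γ) (idx : List ρ) (h : idx ≠ []) :
    1 ≤ (phase P idx).length := by
  cases idx with
  | nil => exact absurd rfl h
  | cons i idx =>
    have h1 : 1 ≤ (gad (P i) i).length := by
      unfold gad
      split
      · simp [nopG]
      · simp [popR]
      · simp [popR]
    unfold phase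
    rw [List.flatMap_cons, List.length_append]
    omega

lemma two_le_layers {Q Γ : Type} (M : Mach Q Γ) (i : M.ρ) : 2 ≤ M.layers.length := by
  have h : M.idx ≠ [] := by
    intro h0
    have := M.mem_idx i
    rw [h0] at this
    simp at this
  have h1 := phase_pos M.src M.idx h
  have h2 := phase_pos M.tgt M.idx h
  unfold Mach.layers
  rw [List.length_append, List.length_map, List.length_reverse]
  omega

/-- the alphabet -/
abbrev G0 : Type := TM2to1.Γ' K' fun _ => Γ'

instance : Finite G0 := inferInstanceAs (Finite (Bool × ∀ _ : K', Option Γ'))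

/-- the initial tape -/
def inp (n : ℕ) : List G0 := TM2to1.trInit K'.main (trList [n])

/-- letters of the initial tape -/
def inpL (b : Bool) (a : Γ') : G0 := (b, Function.update (fun _ => none) K'.main (some a))

lemma inp_eq (n : ℕ) : inp n = inpL true Γ'.cons :: ((trNat n).map (inpL false)).reverse := by
  unfold inp TM2to1.trInit
  have h : (trList [n]).reverse = Γ'.cons :: (trNat n).reverse := by simp [trList]
  rw [h, List.map_cons, ← List.map_reverse]
  rfl

lemma row_primrec {Λ0 : Type} [Finite Λ0] [Inhabited Λ0]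
    (T : Mach (SSt Λ0 G0 × Bool) (SSy Λ0 G0)) (b : Bool)
    (enc : Lt (SSy Λ0 G0) ((SSt Λ0 G0 × Bool) ⊕ T.ρ) → ℕ) :
    Primrec fun n => (T.rowOf (liftC b (can [] [] default (inp n).headI (inp n).tail))).map enc := by
  have h : ∀ n, (T.rowOf (liftC b (can [] [] default (inp n).headI (inp n).tail))).map enc =
      [enc (.m .beg), enc (.m (.lt .bar)), enc (.m (.st (.inl (.Y, b)))),
        enc (.m (.rt (.marked default (inpL true Γ'.cons))))] ++
      ((trNat n).map fun a => enc (.m (.rt (.plain (inpL false a))))).reverse ++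
      [enc (.m (.rt .bot)), enc (.m .fin)] := by
    intro n
    rw [inp_eq]
    simp [Mach.rowOf, crow, liftC, can, row, mrow, Function.comp_def]
  simp only [h]
  exact Primrec.list_append.comp (Primrec.list_append.comp (Primrec.const _)
    (Primrec.list_reverse.comp (primrec_trNat _))) (Primrec.const _)

theorem final :
    ¬ (∃ P : List (List ℕ) × List (List ℕ) → Prop, ComputablePred P ∧
      ∀ u v : List (List ℕ), u.length = v.length →
        (∀ m : ℕ, m < u.length → ∀ f : ℕ → List (Fin m), ∀ k : Fin m → List ℕ,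
          ¬ ∀ i : ℕ, i < u.length → ((f i).map k).flatten = u.getD i []) →
        (∀ m : ℕ, m < v.length → ∀ f : ℕ → List (Fin m), ∀ k : Fin m → List ℕ,
          ¬ ∀ i : ℕ, i < v.length → ((f i).map k).flatten = v.getD i []) →
        (P (u, v) ↔ ∃ w : List ℕ, w ≠ [] ∧ (∀ i ∈ w, i < u.length) ∧
          (w.map (fun i => u.getD i [])).flatten = (w.map (fun i => v.getD i [])).flatten)) := by
  rintro ⟨P, hP, hcor⟩
  obtain ⟨Λ0, hfin, hinh, N, hN⟩ := stage3
  let M := simM N
  let T := turn M (haltP N) (haltP_orth N) (haltP_src N)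
  let c0 : ℕ → Cf (SSt Λ0 G0) (SSy Λ0 G0) :=
    fun n => can [] [] default (inp n).headI (inp n).tail
  let A : ℕ → (Tl T.layers ⊕ Bool) → List (Ltr (Lt (SSy Λ0 G0) ((SSt Λ0 G0 × Bool) ⊕ T.ρ))) :=
    fun n => GG (tlay T.layers) (tg T.layers) (T.rowOf (liftC false (c0 n)))
  let B : ℕ → (Tl T.layers ⊕ Bool) → List (Ltr (Lt (SSy Λ0 G0) ((SSt Λ0 G0 × Bool) ⊕ T.ρ))) :=
    fun n => HH T.layers.length (tlay T.layers) (th T.layers) (T.rowOf (liftC true (c0 n)))
  have hρ : Finite T.ρ := T.fin
  have hgood := T.layers_good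
  have hfι : ∀ i, Finite (T.layers.get i).ι := fun i => (hgood _ (List.get_mem _ i)).fin
  have hfI : Finite (Tl T.layers ⊕ Bool) := inferInstance
  obtain ⟨enc, henc⟩ := Countable.exists_injective_nat
    (Ltr (Lt (SSy Λ0 G0) ((SSt Λ0 G0 × Bool) ⊕ T.ρ)))
  obtain ⟨N', ⟨e'⟩⟩ := Finite.exists_equiv_fin (Tl T.layers ⊕ Bool)
  let e := e'.symm
  let u : ℕ → List (List ℕ) := fun n => List.ofFn fun i => (A n (e i)).map enc
  let v : ℕ → List (List ℕ) := fun n => List.ofFn fun i => (B n (e i)).map enc
  have hlen : 2 ≤ T.layers.length := two_le_layers T (.inl (.inl ⟨_, IsRule.bar⟩))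
  have key : ∀ n, P (u n, v n) ↔ (StateTransition.eval (TM0.step N)
      (TM0.init (TM2to1.trInit PartrecToTM2.K'.main (PartrecToTM2.trList [n])))).Dom := by
    intro n
    rw [hcor (u n) (v n) (by simp [u, v])
      (elem_convert e (A n) enc henc (priv_GG hgood _))
      (elem_convert e (B n) enc henc (priv_HH hgood _))]
    rw [sol_convert e (A n) (B n) enc henc]
    exact turn_main M (haltP N) _ _ (c0 n) _
      (fun h => sim_halts N [] [] default (inp n).headI (inp n).tail h)
      (fun h => sim_diverges N [] [] default (inp n).headI (inp n).tail h) hlen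
  have hcomp : Computable fun n => (u n, v n) := by
    refine (Primrec.pair ?_ ?_).to_comp
    · refine Primrec.list_ofFn fun i => ?_
      rcases e i with τ | (_ | _)
      · exact Primrec.const (List.map enc (A 0 (Sum.inl τ)))
      · exact Primrec.const (List.map enc (A 0 (Sum.inr false)))
      · have h1 := row_primrec T false fun y => enc (Sum.inl (0, y))
        have h2 : Primrec fun _ : ℕ => [enc (Sum.inr true)] := Primrec.const _
        refine (Primrec.list_append.comp h1 h2).of_eq fun n => ?_
        simp [A, GG, tag, c0, Function.comp_def]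
    · refine Primrec.list_ofFn fun i => ?_
      rcases e i with τ | (_ | _)
      · exact Primrec.const (List.map enc (B 0 (Sum.inl τ)))
      · have h1 := row_primrec T true fun y => enc (Sum.inl (0, y))
        have h2 : Primrec fun _ : ℕ => enc (Sum.inr false) := Primrec.const _
        refine (Primrec.list_cons.comp h2 h1).of_eq fun n => ?_
        simp [B, HH, tag, c0, Function.comp_def]
      · exact Primrec.const (List.map enc (B 0 (Sum.inr true)))
  apply hN
  obtain ⟨f, hf1, hf2⟩ := ComputablePred.computable_iff.1 hP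
  refine ComputablePred.computable_iff.2 ⟨fun n => f (u n, v n), hf1.comp hcomp, ?_⟩
  funext n
  rw [← propext (key n), hf2]

end Pool.Agent.Helper79.Pcp
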