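import Mathlib

/-! # A graph on `λ⁺` for singular `λ` of countable cofinality -/

set_option autoImplicit false

namespace Pool.Agent.Helper79.Hajnal

open Cardinal Set

/-- transversals for large sets -/
theorem exists_transversal {ι β : Type} (S : ι → Set β) (h : ∀ i, Cardinal.mk ι ≤ Cardinal.mk (S i)) :
    ∃ F : ι → β, Function.Injective F ∧ ∀ i, F i ∈ S i := by
  classical
  obtain ⟨r, wo, hr⟩ := Cardinal.exists_ord_eq ι
  have hcard : ∀ i, Cardinal.mk {j // r j i} < Cardinal.mk ι := by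
    intro i
    have := Cardinal.card_typein_lt (r := r) i hr
    rwa [Ordinal.card_typein] at this
  have key : ∀ i (g : ∀ j, r j i → β), ∃ x ∈ S i, ∀ j (hj : r j i), x ≠ g j hj := by
    intro i g
    by_contra hcon
    push Not at hcon
    have hsub : S i ⊆ Set.range (fun j : {j // r j i} => g j.1 j.2) := by
      intro x hx
      obtain ⟨j, hj, hx'⟩ := hcon x hx
      exact ⟨⟨j, hj⟩, hx'.symm⟩
    have h1 : Cardinal.mk (S i) ≤ Cardinal.mk {j // r j i} := (Cardinal.mk_le_mk_of_subset hsub).trans Cardinal.mk_range_le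
    exact absurd ((h i).trans h1) (not_le.2 (hcard i))
  choose F hF1 hF2 using key
  let G := wo.wf.fix F
  have hG : ∀ i, G i = F i (fun j _ => G j) := fun i => WellFounded.fix_eq _ _ _
  refine ⟨G, ?_, fun i => by rw [hG]; exact hF1 _ _⟩
  intro i j hij
  rcases trichotomous_of r i j with h1 | h1 | h1
  · exfalso
    apply hF2 j (fun k _ => G k) i h1
    rw [← hG]
    exact hij.symm
  · exact h1
  · exfalso
    apply hF2 i (fun k _ => G k) j h1
    rw [← hG]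
    exact hij

section Core

variable {V W : Type} [LinearOrder V] [LinearOrder W] (f : V → ℕ → W)

/-- the cones to the right of `ξ` which meet `A` -/
def PP (ξ : V) (A : Set V) : Set (ℕ × W) :=
  {p | f ξ p.1 < p.2 ∧ ∃ y ∈ A, (∀ k < p.1, f y k = f ξ k) ∧ f y p.1 = p.2}

lemma first_diff {y ξ : V} {m m' : ℕ} (h1 : ∀ k < m, f y k = f ξ k) (h2 : f ξ m < f y m)
    (h1' : ∀ k < m', f y k = f ξ k) (h2' : f ξ m' < f y m') : m = m' := by
  rcases lt_trichotomy m m' with h | h | h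
  · exact absurd (h1' m h) h2.ne'
  · exact h
  · exact absurd (h1 m' h) h2'.ne'

/-- the graph -/
theorem exists_graph (lam : Cardinal.{0}) (e : V → Set V) (hV : ∀ ξ : V, Cardinal.mk (Set.Iio ξ) ≤ lam) :
    ∃ G : V → Set V,
      (∀ ξ, ∀ y ∈ G ξ, y < ξ) ∧
      (∀ ξ, ∀ y ∈ G ξ, ∃ m, (∀ k < m, f y k = f ξ k) ∧ f ξ m < f y m) ∧
      (∀ ξ, ∀ y ∈ G ξ, ∀ y' ∈ G ξ, ∀ m, (∀ k < m, f y k = f ξ k) → (∀ k < m, f y' k = f ξ k) →
        f ξ m < f y m → f y m = f y' m → y = y') ∧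
      (∀ ξ i, i < ξ → e i ⊆ Set.Iio ξ → lam ≤ Cardinal.mk (PP f ξ (e i)) → ∃ y ∈ e i, y ∈ G ξ) := by
  classical
  have hF : ∀ ξ : V, ∃ F : {i : V // i < ξ ∧ e i ⊆ Set.Iio ξ ∧ lam ≤ Cardinal.mk (PP f ξ (e i))} → ℕ × W,
      Function.Injective F ∧ ∀ i, F i ∈ PP f ξ (e i.1) := by
    intro ξ
    refine exists_transversal _ fun i => ?_
    refine le_trans ?_ i.2.2.2
    refine le_trans ?_ (hV ξ)
    exact Cardinal.mk_le_of_injective
      (f := fun i : {i : V // i < ξ ∧ e i ⊆ Set.Iio ξ ∧ lam ≤ Cardinal.mk (PP f ξ (e i))} =>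
        (⟨i.1, i.2.1⟩ : Set.Iio ξ))
      (fun i j hij => Subtype.ext (congrArg (fun z : Set.Iio ξ => z.1) hij))
  choose F hFinj hFmem using hF
  have hy : ∀ (ξ : V) (i : {i : V // i < ξ ∧ e i ⊆ Set.Iio ξ ∧ lam ≤ Cardinal.mk (PP f ξ (e i))}),
      ∃ y ∈ e i.1, (∀ k < (F ξ i).1, f y k = f ξ k) ∧ f y (F ξ i).1 = (F ξ i).2 :=
    fun ξ i => (hFmem ξ i).2
  choose y hy1 hy2 hy3 using hy
  have hlt : ∀ ξ i, f ξ (F ξ i).1 < f (y ξ i) (F ξ i).1 := by
    intro ξ i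
    rw [hy3 ξ i]
    exact (hFmem ξ i).1
  refine ⟨fun ξ => Set.range (y ξ), ?_, ?_, ?_, ?_⟩
  · rintro ξ _ ⟨i, rfl⟩
    exact i.2.2.1 (hy1 ξ i)
  · rintro ξ _ ⟨i, rfl⟩
    exact ⟨_, hy2 ξ i, hlt ξ i⟩
  · rintro ξ _ ⟨i, rfl⟩ _ ⟨j, rfl⟩ m h1 h2 h3 h4
    have e1 := first_diff f (hy2 ξ i) (hlt ξ i) h1 h3
    have e2 := first_diff f (hy2 ξ j) (hlt ξ j) h2 (h4 ▸ h3)
    have : i = j := by
      apply hFinj ξ
      refine Prod.ext (e1.trans e2.symm) ?_
      rw [← hy3, ← hy3, e1, e2, h4]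
    rw [this]
  · intro ξ i h1 h2 h3
    exact ⟨y ξ ⟨i, h1, h2, h3⟩, hy1 ξ ⟨i, h1, h2, h3⟩, ⟨_, rfl⟩⟩

/-- cliques below a vertex converge to the vertex -/
theorem clique_conv [WellFoundedLT W] (G : V → Set V)
    (h0 : ∀ ξ, ∀ y ∈ G ξ, y < ξ)
    (h1 : ∀ ξ, ∀ y ∈ G ξ, ∃ m, (∀ k < m, f y k = f ξ k) ∧ f ξ m < f y m)
    (h2 : ∀ ξ, ∀ y ∈ G ξ, ∀ y' ∈ G ξ, ∀ m, (∀ k < m, f y k = f ξ k) →
      (∀ k < m, f y' k = f ξ k) → f ξ m < f y m → f y m = f y' m → y = y')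
    (Y : ℕ → V) (hY : ∀ k l, k < l → Y k ∈ G (Y l)) (ξ : V) (hξ : ∀ k, Y k ∈ G ξ) :
    ∀ n, ∃ K, ∀ k, K ≤ k → f (Y k) n = f ξ n := by
  choose m hm1 hm2 using fun k => h1 ξ (Y k) (hξ k)
  have hmono : ∀ k l, k < l → m k ≤ m l := by
    intro k l hkl
    by_contra hcon
    push Not at hcon
    obtain ⟨d, hd1, hd2⟩ := h1 (Y l) (Y k) (hY k l hkl)
    have e1 : f (Y k) (m l) = f ξ (m l) := hm1 k _ hcon
    rcases lt_trichotomy d (m l) with h | h | h
    · rw [hm1 l d h, hm1 k d (h.trans hcon)] at hd2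
      exact lt_irrefl _ hd2
    · subst h
      rw [e1] at hd2
      exact lt_irrefl _ (hd2.trans (hm2 l))
    · have e2 := hd1 _ h
      have e3 := hm2 l
      rw [← e2, e1] at e3
      exact lt_irrefl _ e3
  have heq : ∀ k l, k < l → m k = m l → f (Y l) (m l) < f (Y k) (m k) := by
    intro k l hkl hm
    obtain ⟨d, hd1, hd2⟩ := h1 (Y l) (Y k) (hY k l hkl)
    rcases lt_trichotomy d (m l) with h | h | h
    · rw [hm1 l d h, hm1 k d (hm ▸ h)] at hd2
      exact absurd hd2 (lt_irrefl _)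
    · subst h
      rw [hm]
      exact hd2
    · have e2 := hd1 _ h
      have e3 : Y k = Y l := by
        refine h2 ξ (Y k) (hξ k) (Y l) (hξ l) (m l) ?_ (hm1 l) ?_ e2
        · rw [← hm]
          exact hm1 k
        · rw [← hm]
          exact hm2 k
      exact absurd (h0 _ _ (hY k l hkl)) (e3 ▸ lt_irrefl _)
  have hinf : ∀ n, ∃ K, n < m K := by
    intro n
    by_contra hcon
    push Not at hcon
    obtain ⟨k, hk⟩ := WellFounded.not_rel_apply_succ (r := ((· < ·) : ℕ ×ₗ W → ℕ ×ₗ W → Prop))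
      (fun k => toLex (n - m k, f (Y k) (m k)))
    apply hk
    rw [Prod.Lex.toLex_lt_toLex]
    rcases (hmono k (k + 1) (Nat.lt_succ_self k)).lt_or_eq with h | h
    · left
      have := hcon (k + 1)
      simp only
      omega
    · right
      exact ⟨by simp only; rw [h], heq k (k + 1) (Nat.lt_succ_self k) h⟩
  intro n
  obtain ⟨K, hK⟩ := hinf n
  refine ⟨K, fun k hk => hm1 k n ?_⟩
  rcases hk.lt_or_eq with h | h
  · exact hK.trans_le (hmono K k h)
  · rw [← h]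
    exact hK

/-- initial segments of branches -/
def node (x : V) (n : ℕ) : List W := (List.range n).map (f x)

lemma node_eq {x y : V} {n n' : ℕ} (h : node f x n = node f y n') :
    n = n' ∧ ∀ k < n, f x k = f y k := by
  have hl : n = n' := by
    have := congrArg List.length h
    simpa [node] using this
  subst hl
  refine ⟨rfl, fun k hk => ?_⟩
  have := List.map_inj_left.1 h k (List.mem_range.2 hk)
  exact this

lemma node_congr {x y : V} {n : ℕ} (h : ∀ k < n, f x k = f y k) : node f x n = node f y n :=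
  List.map_inj_left.2 fun k hk => h k (List.mem_range.1 hk)

lemma node_succ (x : V) (n : ℕ) : node f x (n + 1) = node f x n ++ [f x n] := by
  simp [node, List.range_succ]

/-- few vertices have few cones to the right -/
theorem few_small [WellFoundedLT W] (hf : Function.Injective f) (X : Set V) (c : Cardinal.{0})
    (hc : ℵ₀ ≤ c) : Cardinal.mk {ξ | ξ ∈ X ∧ Cardinal.mk (PP f ξ X) ≤ c} ≤ c ^ ℵ₀ := by
  classical
  let su : List W → Set W := fun t => {s | ∃ x ∈ X, ∃ n, node f x (n + 1) = t ++ [s]}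
  let U : List W → Set W := fun t => {r | r ∈ su t ∧ Cardinal.mk {s | s ∈ su t ∧ r < s} ≤ c}
  have hU : ∀ t, Cardinal.mk (U t) ≤ c := by
    intro t
    by_cases hne : (U t).Nonempty
    · obtain ⟨r0, hr0, hmin⟩ := WellFounded.has_min (r := ((· < ·) : W → W → Prop))
        wellFounded_lt (U t) hne
      have hsub : U t ⊆ insert r0 {s | s ∈ su t ∧ r0 < s} := by
        intro r hr
        rcases lt_trichotomy r r0 with h | h | h
        · exact absurd h (hmin r hr)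
        · exact Or.inl h
        · exact Or.inr ⟨hr.1, h⟩
      calc Cardinal.mk (U t) ≤ Cardinal.mk (insert r0 {s | s ∈ su t ∧ r0 < s} : Set W) :=
            Cardinal.mk_le_mk_of_subset hsub
        _ ≤ Cardinal.mk {s | s ∈ su t ∧ r0 < s} + 1 := Cardinal.mk_insert_le
        _ ≤ c := Cardinal.add_le_of_le hc hr0.2 (Cardinal.one_le_aleph0.trans hc)
    · rw [Set.not_nonempty_iff_eq_empty] at hne
      rw [hne, Cardinal.mk_eq_zero]
      exact zero_le
  let Ln : Type := c.out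
  have hLn : Cardinal.mk Ln = c := Cardinal.mk_out c
  have : Nonempty Ln := by
    rw [← Cardinal.mk_ne_zero_iff, hLn]
    exact (Cardinal.aleph0_pos.trans_le hc).ne'
  have hg : ∀ t, ∃ g : W → Ln, Set.InjOn g (U t) := by
    intro t
    have h1 : Cardinal.mk (U t) ≤ Cardinal.mk Ln := (hU t).trans hLn.ge
    obtain ⟨j⟩ := h1
    refine ⟨fun w => if h : w ∈ U t then j ⟨w, h⟩ else Classical.arbitrary Ln, ?_⟩
    intro w hw w' hw' heq
    simp only [dif_pos hw, dif_pos hw'] at heq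
    exact congrArg Subtype.val (j.injective heq)
  choose g hg using hg
  have hmem : ∀ ξ, ξ ∈ X → Cardinal.mk (PP f ξ X) ≤ c → ∀ m, f ξ m ∈ U (node f ξ m) := by
    intro ξ hξ hξc m
    refine ⟨⟨ξ, hξ, m, node_succ f ξ m⟩, ?_⟩
    refine le_trans ?_ hξc
    have hin : ∀ s : {s | s ∈ su (node f ξ m) ∧ f ξ m < s}, ((m, s.1) : ℕ × W) ∈ PP f ξ X := by
      rintro ⟨s, ⟨x, hx, n, hn⟩, hs⟩
      have h1 := List.append_inj' ((node_succ f x n).symm.trans hn) rfl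
      obtain ⟨h2, h3⟩ := node_eq f h1.1
      subst h2
      refine ⟨hs, x, hx, h3, ?_⟩
      simpa using h1.2
    exact Cardinal.mk_le_of_injective (f := fun s => (⟨(m, s.1), hin s⟩ : PP f ξ X))
      (fun s s' hss => Subtype.ext (by
        have := congrArg (fun z : PP f ξ X => z.1.2) hss
        exact this))
  have hinj : Function.Injective (fun (ξ : {ξ | ξ ∈ X ∧ Cardinal.mk (PP f ξ X) ≤ c}) (m : ℕ) =>
      g (node f ξ.1 m) (f ξ.1 m)) := by
    rintro ⟨ξ, hξ, hξc⟩ ⟨η, hη, hηc⟩ heq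
    have key : ∀ m, f ξ m = f η m := by
      intro m
      induction m using Nat.strong_induction_on with
      | _ m ih =>
        have e1 := congrFun heq m
        simp only at e1
        have e2 := node_congr f ih
        rw [← e2] at e1
        refine hg _ (hmem ξ hξ hξc m) ?_ e1
        rw [e2]
        exact hmem η hη hηc m
    exact Subtype.ext (hf (funext key))
  have h1 := Cardinal.mk_le_of_injective hinj
  refine h1.trans ?_
  rw [← hLn]
  simp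

/-- the hitting lemma -/
theorem hitting [WellFoundedLT W] (lam : Cardinal.{0}) (hlam : ℵ₀ ≤ lam) (hW : Cardinal.mk W = lam)
    (hf : Function.Injective f) (hV : ∀ ξ : V, Cardinal.mk (Set.Iio ξ) ≤ lam)
    (ls : ℕ → Cardinal.{0}) (hls : ∀ n, ℵ₀ ≤ ls n) (hls1 : ∀ n, ls n ^ ℵ₀ ≤ lam)
    (hls2 : ∀ c, c < lam → ∃ n, c ≤ ls n)
    (e : V → Set V) (he : ∀ A : Set V, Cardinal.mk A ≤ lam → ∃ i, e i = A)
    (X : Set V) (hX : lam < Cardinal.mk X) :
    ∃ ξ ∈ X, ∃ i, i < ξ ∧ e i ⊆ Set.Iio ξ ∧ e i ⊆ X ∧ lam ≤ Cardinal.mk (PP f ξ (e i)) := by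
  classical
  have : Infinite W := by
    rw [Cardinal.infinite_iff, hW]
    exact hlam
  let T := {t : List W // ∃ x ∈ X, ∃ n, node f x n = t}
  have hT : Cardinal.mk T ≤ lam := by
    refine (Cardinal.mk_subtype_le _).trans ?_
    rw [Cardinal.mk_list_eq_mk, hW]
  have hx : ∀ t : T, ∃ x ∈ X, ∃ n, node f x n = t.1 := fun t => t.2
  choose x hx1 hx2 using hx
  have hA : Cardinal.mk (Set.range x) ≤ lam := Cardinal.mk_range_le.trans hT
  obtain ⟨i, hi⟩ := he _ hA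
  have hPP : ∀ ξ, PP f ξ X ⊆ PP f ξ (Set.range x) := by
    rintro ξ ⟨m, s⟩ ⟨h1, y, hy, h2, h3⟩
    let t : T := ⟨node f y (m + 1), y, hy, m + 1, rfl⟩
    obtain ⟨n, hn⟩ := hx2 t
    obtain ⟨hn1, hn2⟩ := node_eq f hn
    subst hn1
    refine ⟨h1, x t, ⟨t, rfl⟩, ?_, ?_⟩
    · intro k hk
      exact (hn2 k (Nat.lt_succ_of_lt hk)).trans (h2 k hk)
    · exact (hn2 m (Nat.lt_succ_self m)).trans h3
  have hIic : ∀ a : V, Cardinal.mk (Set.Iic a) ≤ lam := by
    intro a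
    have : Set.Iic a ⊆ insert a (Set.Iio a) := by
      intro b hb
      rcases (Set.mem_Iic.1 hb).lt_or_eq with h | h
      · exact Or.inr h
      · exact Or.inl h
    refine (Cardinal.mk_le_mk_of_subset this).trans (Cardinal.mk_insert_le.trans ?_)
    exact Cardinal.add_le_of_le hlam (hV a) (Cardinal.one_le_aleph0.trans hlam)
  let B1 : Set V := ⋃ n, {ξ | ξ ∈ X ∧ Cardinal.mk (PP f ξ X) ≤ ls n}
  have hB1 : Cardinal.mk B1 ≤ lam := by
    refine (Cardinal.mk_iUnion_le _).trans ?_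
    refine (mul_le_mul' (le_of_eq Cardinal.mk_nat) (ciSup_le' fun n =>
      (few_small f hf X (ls n) (hls n)).trans (hls1 n))).trans ?_
    exact Cardinal.mul_le_of_le hlam hlam le_rfl
  let B2 : Set V := ⋃ t : T, Set.Iic (x t)
  have hB2 : Cardinal.mk B2 ≤ lam := by
    refine (Cardinal.mk_iUnion_le _).trans ?_
    refine (mul_le_mul' hT (ciSup_le' fun t => hIic (x t))).trans ?_
    exact Cardinal.mul_le_of_le hlam le_rfl le_rfl
  have hB : Cardinal.mk (B1 ∪ B2 ∪ Set.Iic i : Set V) ≤ lam := by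
    refine (Cardinal.mk_union_le _ _).trans (Cardinal.add_le_of_le hlam ?_ (hIic i))
    exact (Cardinal.mk_union_le _ _).trans (Cardinal.add_le_of_le hlam hB1 hB2)
  have hex : ∃ ξ ∈ X, ξ ∉ (B1 ∪ B2 ∪ Set.Iic i : Set V) := by
    by_contra hcon
    push Not at hcon
    exact absurd ((Cardinal.mk_le_mk_of_subset hcon).trans hB) (not_le.2 hX)
  obtain ⟨ξ, hξ, hξB⟩ := hex
  simp only [Set.mem_union, not_or] at hξB
  obtain ⟨⟨hξ1, hξ2⟩, hξ3⟩ := hξB
  refine ⟨ξ, hξ, i, not_le.1 hξ3, ?_, ?_, ?_⟩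
  · rw [hi]
    rintro _ ⟨t, rfl⟩
    by_contra hcon
    exact hξ2 (Set.mem_iUnion.2 ⟨t, not_lt.1 hcon⟩)
  · rw [hi]
    rintro _ ⟨t, rfl⟩
    exact hx1 t
  · rw [hi]
    refine le_trans ?_ (Cardinal.mk_le_mk_of_subset (hPP ξ))
    by_contra hcon
    obtain ⟨n, hn⟩ := hls2 _ (not_le.1 hcon)
    exact hξ1 (Set.mem_iUnion.2 ⟨n, hξ, hn⟩)

end Core

/-- the main construction -/
theorem main {V W : Type} [LinearOrder V] [LinearOrder W] [WellFoundedLT W]
    (lam : Cardinal.{0}) (hlam : ℵ₀ ≤ lam) (hW : Cardinal.mk W = lam)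
    (hVc : Cardinal.mk V = 2 ^ lam) (hVW : Cardinal.mk V ≤ Cardinal.mk (ℕ → W)) (hV : ∀ ξ : V, Cardinal.mk (Set.Iio ξ) ≤ lam)
    (ls : ℕ → Cardinal.{0}) (hls : ∀ n, ℵ₀ ≤ ls n) (hls1 : ∀ n, ls n ^ ℵ₀ ≤ lam)
    (hls2 : ∀ c, c < lam → ∃ n, c ≤ ls n) :
    ∃ E : V → V → Prop,
      (∀ X : Set V, lam < Cardinal.mk X → ∃ y ∈ X, ∃ ξ ∈ X, y < ξ ∧ E y ξ) ∧
      ¬ ∃ (Y : ℕ → V) (β ξ : V), β < ξ ∧ (∀ k l, k < l → E (Y k) (Y l)) ∧
        (∀ k, E (Y k) β) ∧ (∀ k, E (Y k) ξ) := by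
  classical
  obtain ⟨⟨f, hf⟩⟩ := hVW
  have hcount : Cardinal.mk {A : Set V // Cardinal.mk A ≤ lam} ≤ Cardinal.mk V := by
    refine (Cardinal.mk_bounded_set_le V lam).trans ?_
    have h1 : ℵ₀ ≤ Cardinal.mk V := by
      rw [hVc]
      exact hlam.trans (Cardinal.cantor lam).le
    rw [max_eq_left h1, hVc, ← Cardinal.power_mul, Cardinal.mul_eq_self hlam]
  obtain ⟨j⟩ := hcount
  let e : V → Set V := fun v => if h : ∃ A, j A = v then h.choose.1 else ∅
  have he : ∀ A : Set V, Cardinal.mk A ≤ lam → ∃ i, e i = A := by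
    intro A hA
    refine ⟨j ⟨A, hA⟩, ?_⟩
    have h : ∃ A', j A' = j ⟨A, hA⟩ := ⟨_, rfl⟩
    change (if h : ∃ A', j A' = j ⟨A, hA⟩ then h.choose.1 else ∅) = A
    rw [dif_pos h, j.injective h.choose_spec]
  obtain ⟨G, hG0, hG1, hG2, hG3⟩ := exists_graph f lam e hV
  refine ⟨fun y ξ => y ∈ G ξ, ?_, ?_⟩
  · intro X hX
    obtain ⟨ξ, hξ, i, h1, h2, h3, h4⟩ :=
      hitting f lam hlam hW hf hV ls hls hls1 hls2 e he X hX
    obtain ⟨y, hy1, hy2⟩ := hG3 ξ i h1 h2 h4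
    exact ⟨y, h3 hy1, ξ, hξ, hG0 ξ y hy2, hy2⟩
  · rintro ⟨Y, β, ξ, hβξ, hY, hβ, hξ⟩
    have c1 := clique_conv f G hG0 hG1 hG2 Y hY β hβ
    have c2 := clique_conv f G hG0 hG1 hG2 Y hY ξ hξ
    have : f β = f ξ := by
      funext n
      obtain ⟨K1, h1⟩ := c1 n
      obtain ⟨K2, h2⟩ := c2 n
      rw [← h1 (max K1 K2) (le_max_left _ _), ← h2 (max K1 K2) (le_max_right _ _)]
    exact absurd (hf this) hβξ.ne

end Pool.Agent.Helper79.Hajnal
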