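import Pool.Agent.Helper79.HajnalCore

/-! # The relation `ℵ_{ω+1} ↛ (ℵ_{ω+1}, ω+2)²` under GCH -/

set_option autoImplicit false

namespace Pool.Agent.Helper79.Hajnal

open Cardinal Set

lemma le_aleph_nat {c : Cardinal.{0}} (hc : c < Cardinal.aleph Ordinal.omega0) :
    ∃ n : ℕ, c ≤ Cardinal.aleph n := by
  by_cases h : ℵ₀ ≤ c
  · obtain ⟨o, rfl⟩ := Cardinal.mem_range_aleph_iff.2 h
    rw [Cardinal.aleph_lt_aleph] at hc
    obtain ⟨n, rfl⟩ := Ordinal.lt_omega0.1 hc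
    exact ⟨n, le_rfl⟩
  · refine ⟨0, (not_le.1 h).le.trans ?_⟩
    exact Cardinal.aleph0_le_aleph _

lemma aleph_nat_lt (n : ℕ) : Cardinal.aleph (n : Ordinal.{0}) < Cardinal.aleph Ordinal.omega0 :=
  Cardinal.aleph_lt_aleph.2 (Ordinal.natCast_lt_omega0 n)

lemma aleph_omega_lt_pow : Cardinal.aleph Ordinal.omega0 < Cardinal.aleph.{0} Ordinal.omega0 ^ ℵ₀ := by
  have h1 := Cardinal.sum_lt_prod (fun n : ℕ => Cardinal.aleph (n : Ordinal.{0}))
    (fun _ : ℕ => Cardinal.aleph.{0} Ordinal.omega0) aleph_nat_lt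
  have h2 : Cardinal.aleph.{0} Ordinal.omega0 ≤
      Cardinal.sum (fun n : ℕ => Cardinal.aleph (n : Ordinal.{0})) := by
    by_contra hcon
    obtain ⟨n, hn⟩ := le_aleph_nat (not_le.1 hcon)
    have h3 : Cardinal.aleph ((n + 1 : ℕ) : Ordinal.{0}) ≤
        Cardinal.sum (fun n : ℕ => Cardinal.aleph (n : Ordinal.{0})) :=
      Cardinal.le_sum (fun n : ℕ => Cardinal.aleph (n : Ordinal.{0})) (n + 1)
    have h4 := h3.trans hn
    rw [Cardinal.aleph_le_aleph] at h4
    exact absurd (Nat.cast_le.1 h4) (by omega)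
  refine h2.trans_lt (h1.trans_eq ?_)
  rw [Cardinal.prod_const]
  simp

theorem final :
    (∀ κ : Cardinal.{0}, Cardinal.aleph0 ≤ κ → (2 : Cardinal.{0}) ^ κ = Order.succ κ) →
    ∃ c : Ordinal.{0} → Ordinal.{0} → Bool,
      (∀ g : Ordinal.{0} → Ordinal.{0},
        StrictMonoOn g (Set.Iio (Cardinal.aleph (Ordinal.omega0 + 1)).ord) →
        (∀ i, i < (Cardinal.aleph (Ordinal.omega0 + 1)).ord →
            g i < (Cardinal.aleph (Ordinal.omega0 + 1)).ord) →
        ∃ i j, i < j ∧ j < (Cardinal.aleph (Ordinal.omega0 + 1)).ord ∧ c (g i) (g j) = true) ∧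
      (∀ g : Ordinal.{0} → Ordinal.{0},
        StrictMonoOn g (Set.Iio (Ordinal.omega0 + 2)) →
        (∀ i, i < Ordinal.omega0 + 2 → g i < (Cardinal.aleph (Ordinal.omega0 + 1)).ord) →
        ∃ i j, i < j ∧ j < Ordinal.omega0 + 2 ∧ c (g i) (g j) = false) := by
  classical
  intro gch
  set lam : Cardinal.{0} := Cardinal.aleph Ordinal.omega0 with hlamdef
  have hlam : ℵ₀ ≤ lam := Cardinal.aleph0_le_aleph _
  have hsucc : Cardinal.aleph (Ordinal.omega0 + 1) = Order.succ lam :=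
    (Cardinal.succ_aleph _).symm
  set Λ : Ordinal.{0} := (Cardinal.aleph (Ordinal.omega0 + 1)).ord with hΛ
  have hW : Cardinal.mk lam.ord.ToType = lam := Cardinal.mk_ord_toType _
  have hVc' : Cardinal.mk (Λ.ToType) = Order.succ lam := by
    rw [hΛ, Cardinal.mk_ord_toType, hsucc]
  obtain ⟨E, hE1, hE2⟩ := main (V := Λ.ToType) (W := lam.ord.ToType) lam hlam hW
    (by rw [hVc', gch lam hlam])
    (by
      rw [hVc', Order.succ_le_iff]
      refine aleph_omega_lt_pow.trans_eq ?_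
      rw [← hlamdef, ← hW]
      simp)
    (fun ξ => by
      have h1 : Cardinal.mk (Set.Iio ξ) < Cardinal.aleph (Ordinal.omega0 + 1) :=
        Cardinal.mk_Iio_toType_ord_lt ξ
      exact Order.lt_succ_iff.1 (h1.trans_eq hsucc))
    (fun n => Cardinal.aleph n) (fun n => Cardinal.aleph0_le_aleph _)
    (fun n => by
      have h0 : ℵ₀ ≤ Cardinal.aleph (n : Ordinal.{0}) := Cardinal.aleph0_le_aleph _
      calc Cardinal.aleph (n : Ordinal.{0}) ^ ℵ₀
          ≤ Cardinal.aleph (n : Ordinal.{0}) ^ Cardinal.aleph (n : Ordinal.{0}) :=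
            Cardinal.power_le_power_left (Cardinal.aleph0_pos.trans_le h0).ne' h0
        _ = 2 ^ Cardinal.aleph (n : Ordinal.{0}) := Cardinal.power_self_eq h0
        _ = Order.succ (Cardinal.aleph (n : Ordinal.{0})) := gch _ h0
        _ ≤ lam := Order.succ_le_of_lt (aleph_nat_lt n))
    (fun c hc => le_aleph_nat hc)
  let E' : Ordinal.{0} → Ordinal.{0} → Prop := fun α β =>
    ∃ (hα : α < Λ) (hβ : β < Λ), E (Ordinal.ToType.mk ⟨α, hα⟩) (Ordinal.ToType.mk ⟨β, hβ⟩)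
  refine ⟨fun α β => decide (E' α β), ?_, ?_⟩
  · intro g hg hgΛ
    have hlt : ∀ v : Λ.ToType, g (Ordinal.ToType.mk.symm v).1 < Λ :=
      fun v => hgΛ _ (Ordinal.ToType.mk.symm v).2
    let φ : Λ.ToType → Λ.ToType := fun v => Ordinal.ToType.mk ⟨_, hlt v⟩
    have hφ : Function.Injective φ := by
      intro a b hab
      have h1 := Ordinal.ToType.mk.injective hab
      have h2 : g (Ordinal.ToType.mk.symm a).1 = g (Ordinal.ToType.mk.symm b).1 :=
        congrArg Subtype.val h1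
      have h3 := hg.injOn (Ordinal.ToType.mk.symm a).2 (Ordinal.ToType.mk.symm b).2 h2
      exact Ordinal.ToType.mk.symm.injective (Subtype.ext h3)
    have hX : lam < Cardinal.mk (Set.range φ) := by
      rw [Cardinal.mk_range_eq φ hφ, hVc']
      exact Order.lt_succ lam
    obtain ⟨_, ⟨a, rfl⟩, _, ⟨b, rfl⟩, hab, hE⟩ := hE1 _ hX
    refine ⟨(Ordinal.ToType.mk.symm a).1, (Ordinal.ToType.mk.symm b).1, ?_,
      (Ordinal.ToType.mk.symm b).2, ?_⟩
    · have h1 := Ordinal.ToType.mk.lt_iff_lt.1 hab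
      have h2 : g (Ordinal.ToType.mk.symm a).1 < g (Ordinal.ToType.mk.symm b).1 := h1
      exact (hg.lt_iff_lt (Ordinal.ToType.mk.symm a).2 (Ordinal.ToType.mk.symm b).2).1 h2
    · exact decide_eq_true ⟨hlt a, hlt b, hE⟩
  · intro g hg hgΛ
    by_contra hcon
    push Not at hcon
    have hEE : ∀ i j, i < j → j < Ordinal.omega0 + 2 → E' (g i) (g j) := by
      intro i j h1 h2
      have := hcon i j h1 h2
      simpa using this
    have hn : ∀ n : ℕ, ((n : ℕ) : Ordinal.{0}) < Ordinal.omega0 + 2 := fun n =>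
      (Ordinal.natCast_lt_omega0 n).trans_le le_self_add
    have hw : Ordinal.omega0 < Ordinal.omega0 + 1 := lt_add_one _
    have hw1 : Ordinal.omega0 + 1 < Ordinal.omega0 + 2 := by
      rw [← one_add_one_eq_two, ← add_assoc]
      exact lt_add_one _
    have hw0 : Ordinal.omega0 < Ordinal.omega0 + 2 := hw.trans hw1
    apply hE2
    refine ⟨fun k => Ordinal.ToType.mk ⟨g k, hgΛ k (hn k)⟩,
      Ordinal.ToType.mk ⟨g Ordinal.omega0, hgΛ _ hw0⟩,
      Ordinal.ToType.mk ⟨g (Ordinal.omega0 + 1), hgΛ _ hw1⟩, ?_, ?_, ?_, ?_⟩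
    · rw [Ordinal.ToType.mk.lt_iff_lt]
      exact hg hw0 hw1 hw
    · intro k l hkl
      obtain ⟨_, _, h⟩ := hEE k l (Nat.cast_lt.2 hkl) (hn l)
      exact h
    · intro k
      obtain ⟨_, _, h⟩ := hEE k Ordinal.omega0 (Ordinal.natCast_lt_omega0 k) hw0
      exact h
    · intro k
      obtain ⟨_, _, h⟩ := hEE k (Ordinal.omega0 + 1) ((Ordinal.natCast_lt_omega0 k).trans hw) hw1
      exact h

end Pool.Agent.Helper79.Hajnal
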