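import Mathlib

/-! # PCP and layered systems -/

set_option autoImplicit false

namespace Pool.Agent.Helper79.Pcp

/-- Criterion for a list of words to be elementary. -/
theorem elementary_of_private (u : List (List ℕ)) (p : ℕ → ℕ)
    (hp : ∀ i < u.length, p i ∈ u.getD i [])
    (hpp : ∀ i < u.length, ∀ j < u.length, i ≠ j →
      ¬ (p i ∈ u.getD j [] ∧ p j ∈ u.getD i [])) :
    ∀ m : ℕ, m < u.length → ∀ f : ℕ → List (Fin m), ∀ k : Fin m → List ℕ,
      ¬ ∀ i : ℕ, i < u.length → ((f i).map k).flatten = u.getD i [] := by
  intro m hm f k h
  have hex : ∀ i : Fin u.length, ∃ e : Fin m, e ∈ f i ∧ p i ∈ k e := by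
    intro i
    have h1 := hp i i.2
    rw [← h i i.2, List.mem_flatten] at h1
    obtain ⟨l, hl, hpl⟩ := h1
    obtain ⟨e, he, rfl⟩ := List.mem_map.1 hl
    exact ⟨e, he, hpl⟩
  choose e he hpe using hex
  have hinj : Function.Injective e := by
    intro i j hij
    by_contra hne
    refine hpp i i.2 j j.2 (fun h => hne (Fin.ext h)) ⟨?_, ?_⟩
    · rw [← h j j.2, List.mem_flatten]
      exact ⟨k (e j), List.mem_map.2 ⟨e j, he j, rfl⟩, hij ▸ hpe i⟩
    · rw [← h i i.2, List.mem_flatten]
      exact ⟨k (e i), List.mem_map.2 ⟨e i, he i, rfl⟩, hij ▸ hpe j⟩
  have := Fintype.card_le_of_injective e hinj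
  simp only [Fintype.card_fin] at this
  omega

section Layered

variable {L T : Type} (p : ℕ) (lay : T → ℕ) (g h : T → List L) (R0 Rf : List L)

/-- next layer -/
def nxt (t : ℕ) : ℕ := if t + 1 = p then 0 else t + 1

/-- letters of the PCP instance -/
abbrev Ltr (L : Type) := (ℕ × L) ⊕ Bool

/-- tagging -/
def tag (t : ℕ) (w : List L) : List (Ltr L) := w.map fun x => Sum.inl (t, x)

/-- first list of words -/
def GG : T ⊕ Bool → List (Ltr L)
  | Sum.inl τ => tag (lay τ) (g τ)
  | Sum.inr false => [Sum.inr false]
  | Sum.inr true => tag 0 Rf ++ [Sum.inr true]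

/-- second list of words -/
def HH : T ⊕ Bool → List (Ltr L)
  | Sum.inl τ => tag (nxt p (lay τ)) (h τ)
  | Sum.inr false => Sum.inr false :: tag 0 R0
  | Sum.inr true => [Sum.inr true]

/-- one layer step -/
def Rel (t : ℕ) (R R' : List L) : Prop :=
  ∃ v : List T, (∀ τ ∈ v, lay τ = t) ∧ (v.map g).flatten = R ∧ (v.map h).flatten = R'

/-- `n` layer steps starting in layer `t` -/
def Chain : ℕ → ℕ → List L → List L → Prop
  | 0, _, R, R' => R = R'
  | n + 1, t, R, R' => ∃ R1, Rel lay g h t R R1 ∧ Chain n (nxt p t) R1 R'

/-- from row `R` in layer `t` the row `Rf` in layer `0` is reached -/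
inductive Reach : ℕ → List L → Prop
  | done : Reach 0 Rf
  | step (t : ℕ) (R R' : List L) : Rel lay g h t R R' → Reach (nxt p t) R' → Reach t R

lemma tag_append (t : ℕ) (a b : List L) : tag t (a ++ b) = tag t a ++ tag t b := by
  simp [tag]

lemma tag_flatten (t : ℕ) (v : List T) (f : T → List L) :
    (v.map fun τ => tag t (f τ)).flatten = tag t (v.map f).flatten := by
  induction v with
  | nil => rfl
  | cons a v ih => simp only [List.map_cons, List.flatten_cons, ih, tag_append]

lemma tag_append_cancel (t : ℕ) : ∀ (R S : List L) (X Y : List (Ltr L)),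
    (∀ x ∈ X.head?, ∀ a, x ≠ Sum.inl (t, a)) → (∀ y ∈ Y.head?, ∀ a, y ≠ Sum.inl (t, a)) →
    tag t R ++ X = tag t S ++ Y → R = S ∧ X = Y := by
  intro R
  induction R with
  | nil =>
    intro S X Y hX hY hEq
    cases S with
    | nil => exact ⟨rfl, by simpa [tag] using hEq⟩
    | cons s S =>
      exfalso
      simp only [tag, List.map_nil, List.nil_append, List.map_cons, List.cons_append] at hEq
      exact hX (Sum.inl (t, s)) (by rw [hEq]; rfl) s rfl
  | cons r R ih =>
    intro S X Y hX hY hEq
    cases S with
    | nil =>
      exfalso
      simp only [tag, List.map_nil, List.nil_append, List.map_cons, List.cons_append] at hEq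
      exact hY (Sum.inl (t, r)) (by rw [← hEq]; rfl) r rfl
    | cons s S =>
      simp only [tag, List.map_cons, List.cons_append, List.cons.injEq, Sum.inl.injEq,
        Prod.mk.injEq, true_and] at hEq
      obtain ⟨h1, h2⟩ := ih S X Y hX hY hEq.2
      exact ⟨by rw [hEq.1, h1], h2⟩

variable {p lay g h R0 Rf}

lemma reach_of_chain {n t : ℕ} {R : List L} (hc : Chain p lay g h n t R Rf)
    (ht : (nxt p)^[n] t = 0) : Reach p lay g h Rf t R := by
  induction n generalizing t R with
  | zero =>
    simp only [Function.iterate_zero, id_eq] at ht
    subst ht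
    have : R = Rf := hc
    subst this
    exact Reach.done
  | succ n ih =>
    obtain ⟨R1, h1, h2⟩ := hc
    rw [Function.iterate_succ_apply] at ht
    exact Reach.step t R R1 h1 (ih h2 ht)

lemma chain_of_reach {t : ℕ} {R : List L} (hr : Reach p lay g h Rf t R) :
    ∃ n, Chain p lay g h n t R Rf ∧ (nxt p)^[n] t = 0 := by
  induction hr with
  | done => exact ⟨0, rfl, rfl⟩
  | step t R R' h1 _ ih =>
    obtain ⟨n, h2, h3⟩ := ih
    exact ⟨n + 1, ⟨R', h1, h2⟩, by rw [Function.iterate_succ_apply]; exact h3⟩

lemma sol_of_reach_aux {t : ℕ} {R : List L} (hr : Reach p lay g h Rf t R) :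
    ∃ w : List (T ⊕ Bool), tag t R ++ (w.map (HH p lay h R0)).flatten
      = (w.map (GG lay g Rf)).flatten := by
  induction hr with
  | done => exact ⟨[Sum.inr true], by simp [GG, HH]⟩
  | step t R R' h1 _ ih =>
    obtain ⟨w, hw⟩ := ih
    obtain ⟨v, hv, hvg, hvh⟩ := h1
    refine ⟨v.map Sum.inl ++ w, ?_⟩
    have e1 : ((v.map (Sum.inl : T → T ⊕ Bool)).map (GG lay g Rf)).flatten = tag t R := by
      rw [List.map_map, ← hvg, ← tag_flatten]
      congr 1
      apply List.map_congr_left
      intro τ hτ
      simp [GG, hv τ hτ]
    have e2 : ((v.map (Sum.inl : T → T ⊕ Bool)).map (HH p lay h R0)).flatten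
        = tag (nxt p t) R' := by
      rw [List.map_map, ← hvh, ← tag_flatten]
      congr 1
      apply List.map_congr_left
      intro τ hτ
      simp [HH, hv τ hτ]
    rw [List.map_append, List.flatten_append, List.map_append, List.flatten_append, e1, e2, hw]

theorem sol_of_reach (hr : Reach p lay g h Rf 0 R0) :
    ∃ w : List (T ⊕ Bool), w ≠ [] ∧
      (w.map (GG lay g Rf)).flatten = (w.map (HH p lay h R0)).flatten := by
  obtain ⟨w, hw⟩ := sol_of_reach_aux (R0 := R0) hr
  refine ⟨Sum.inr false :: w, by simp, ?_⟩
  simp only [List.map_cons, List.flatten_cons, GG, HH, List.cons_append, List.nil_append]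
  rw [hw]

lemma reach_of_eq (hp : 2 ≤ p) (hg : ∀ τ, g τ ≠ []) (hh : ∀ τ, h τ ≠ []) (hRf : Rf ≠ []) :
    ∀ (n : ℕ) (w : List (T ⊕ Bool)), w.length ≤ n → ∀ (t : ℕ) (R : List L), R ≠ [] →
    tag t R ++ (w.map (HH p lay h R0)).flatten = (w.map (GG lay g Rf)).flatten →
    Reach p lay g h Rf t R := by
  classical
  have hnx : ∀ t, nxt p t ≠ t := by
    intro t
    unfold nxt
    split_ifs with h1
    · omega
    · omega
  intro n
  induction n with
  | zero =>
    intro w hw t R hR hEq
    have : w = [] := List.length_eq_zero_iff.1 (Nat.le_zero.1 hw)
    subst this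
    simp [tag, hR] at hEq
  | succ n ih =>
    intro w hw t R hR hEq
    -- split w
    let P : T ⊕ Bool → Bool := fun x => match x with
      | Sum.inl τ => decide (lay τ = t)
      | Sum.inr _ => false
    have hsplit : w.takeWhile P ++ w.dropWhile P = w := List.takeWhile_append_dropWhile
    set v := w.takeWhile P with hv
    set w2 := w.dropWhile P with hw2
    have hvP : ∀ x ∈ v, P x = true := fun x hx => List.mem_takeWhile_imp hx
    -- v as a list of T
    have hvT : ∃ v' : List T, v = v'.map Sum.inl ∧ ∀ τ ∈ v', lay τ = t := by
      clear_value v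
      clear hv hsplit
      induction v with
      | nil => exact ⟨[], rfl, by simp⟩
      | cons x v ihv =>
        obtain ⟨v', hv', hlay⟩ := ihv (fun y hy => hvP y (List.mem_cons_of_mem _ hy))
        have hx := hvP x (List.mem_cons_self)
        cases x with
        | inl τ =>
          refine ⟨τ :: v', by simp [hv'], ?_⟩
          intro σ hσ
          rcases List.mem_cons.1 hσ with h1 | h1
          · rw [h1]; simpa [P] using hx
          · exact hlay σ h1
        | inr b => simp [P] at hx
    obtain ⟨v', hv', hlay⟩ := hvT
    have e1 : (v.map (GG lay g Rf)).flatten = tag t (v'.map g).flatten := by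
      rw [hv', List.map_map, ← tag_flatten]
      congr 1
      apply List.map_congr_left
      intro τ hτ
      simp [GG, hlay τ hτ]
    have e2 : (v.map (HH p lay h R0)).flatten = tag (nxt p t) (v'.map h).flatten := by
      rw [hv', List.map_map, ← tag_flatten]
      congr 1
      apply List.map_congr_left
      intro τ hτ
      simp [HH, hlay τ hτ]
    have hrel : Rel lay g h t (v'.map g).flatten (v'.map h).flatten := ⟨v', hlay, rfl, rfl⟩
    -- rewrite the equation
    have hG : (w.map (GG lay g Rf)).flatten
        = tag t (v'.map g).flatten ++ (w2.map (GG lay g Rf)).flatten := by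
      rw [← hsplit, List.map_append, List.flatten_append, e1]
    have hH : (w.map (HH p lay h R0)).flatten
        = tag (nxt p t) (v'.map h).flatten ++ (w2.map (HH p lay h R0)).flatten := by
      rw [← hsplit, List.map_append, List.flatten_append, e2]
    -- head of a nonempty v'
    have hvh : v' ≠ [] → (v'.map h).flatten ≠ [] := by
      intro hne
      cases v' with
      | nil => exact absurd rfl hne
      | cons a v' =>
        simp only [List.map_cons, List.flatten_cons]
        intro h0
        exact hh a (List.append_eq_nil_iff.1 h0).1
    have hheadne : v' ≠ [] → ∀ x ∈ ((w.map (HH p lay h R0)).flatten).head?,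
        ∀ a, x ≠ Sum.inl (t, a) := by
      intro hne x hx a hxa
      rw [hH] at hx
      obtain ⟨b, bs, hb⟩ := List.exists_cons_of_ne_nil (hvh hne)
      rw [hb] at hx
      simp only [tag, List.map_cons, List.cons_append, List.head?_cons, Option.mem_def,
        Option.some.injEq] at hx
      rw [hxa] at hx
      simp only [Sum.inl.injEq, Prod.mk.injEq] at hx
      exact hnx t hx.1
    -- the case analysis
    have hcont : v' ≠ [] → (∀ x ∈ ((w2.map (GG lay g Rf)).flatten).head?,
        ∀ a, x ≠ Sum.inl (t, a)) → Reach p lay g h Rf t R := by
      intro hne hw2h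
      rw [hG] at hEq
      obtain ⟨h1, h2⟩ := tag_append_cancel t _ _ _ _ (hheadne hne) hw2h hEq
      rw [hH] at h2
      have hlen : w2.length ≤ n := by
        have : v.length + w2.length = w.length := by
          rw [← List.length_append, hsplit]
        have h3 : v.length = v'.length := by rw [hv']; simp
        have h4 : 0 < v'.length := List.length_pos_iff.2 hne
        omega
      have := ih w2 hlen (nxt p t) (v'.map h).flatten (hvh hne) h2
      rw [h1]
      exact Reach.step t _ _ hrel this
    by_cases hne : v' = []
    · -- v empty : w = w2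
      subst hne
      have hvnil : v = [] := by rw [hv']; rfl
      rw [hvnil, List.nil_append] at hsplit
      obtain ⟨r, R1, hr⟩ := List.exists_cons_of_ne_nil hR
      cases hw2c : w2 with
      | nil =>
        rw [← hsplit, hw2c] at hEq
        simp [tag, hR] at hEq
      | cons x w3 =>
        have hPx : P x = false := by
          have h2 : w2.dropWhile P = w2 := by
            rw [hw2]
            exact List.dropWhile_idempotent P w
          rw [hw2c] at h2
          by_contra hcon
          have hx : P x = true := by simpa using hcon
          rw [List.dropWhile_cons_of_pos hx] at h2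
          have h3 := congrArg List.length h2
          have h4 : (List.dropWhile P w3).length ≤ w3.length :=
            (List.dropWhile_sublist _).length_le
          simp at h3
          omega
        rw [← hsplit, hw2c] at hEq
        cases x with
        | inl τ =>
          have hτ : lay τ ≠ t := by simpa [P] using hPx
          obtain ⟨b, bs, hb⟩ := List.exists_cons_of_ne_nil (hg τ)
          simp only [hr, List.map_cons, List.flatten_cons, GG, tag, hb, List.cons_append,
            List.cons.injEq, Sum.inl.injEq, Prod.mk.injEq] at hEq
          exact absurd hEq.1.1.symm hτ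
        | inr b =>
          cases b with
          | false =>
            simp [hr, GG, tag] at hEq
          | true =>
            obtain ⟨b, bs, hb⟩ := List.exists_cons_of_ne_nil hRf
            have ht : t = 0 := by
              have h2 := hEq
              simp only [hr, List.map_cons, List.flatten_cons, GG, tag, hb, List.cons_append,
                List.cons.injEq, Sum.inl.injEq, Prod.mk.injEq] at h2
              exact h2.1.1
            subst ht
            simp only [List.map_cons, List.flatten_cons, GG, HH, List.append_assoc] at hEq
            have h5 := tag_append_cancel 0 R Rf _ _ (by simp) (by simp) hEq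
            rw [h5.1]
            exact Reach.done
    · -- v nonempty
      cases hw2c : w2 with
      | nil =>
        apply hcont hne
        rw [hw2c]
        simp
      | cons x w3 =>
        have hPx : P x = false := by
          have h2 : w2.dropWhile P = w2 := by
            rw [hw2]
            exact List.dropWhile_idempotent P w
          rw [hw2c] at h2
          by_contra hcon
          have hx : P x = true := by simpa using hcon
          rw [List.dropWhile_cons_of_pos hx] at h2
          have h3 := congrArg List.length h2
          have h4 : (List.dropWhile P w3).length ≤ w3.length :=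
            (List.dropWhile_sublist _).length_le
          simp at h3
          omega
        cases x with
        | inl τ =>
          have hτ : lay τ ≠ t := by simpa [P] using hPx
          apply hcont hne
          rw [hw2c]
          obtain ⟨b, bs, hb⟩ := List.exists_cons_of_ne_nil (hg τ)
          intro y hy a hya
          simp only [List.map_cons, List.flatten_cons, GG, tag, hb, List.cons_append,
            List.head?_cons, Option.mem_def, Option.some.injEq] at hy
          rw [hya] at hy
          simp only [Sum.inl.injEq, Prod.mk.injEq] at hy
          exact hτ hy.1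
        | inr b =>
          cases b with
          | false =>
            apply hcont hne
            rw [hw2c]
            simp [GG]
          | true =>
            by_cases ht : t = 0
            · exfalso
              subst ht
              rw [hG, hw2c] at hEq
              simp only [List.map_cons, List.flatten_cons, GG, List.append_assoc] at hEq
              rw [← List.append_assoc, ← tag_append] at hEq
              have h5 := tag_append_cancel 0 _ _ _ _ (hheadne hne) (by simp) hEq
              rw [hH] at h5
              obtain ⟨b, bs, hb⟩ := List.exists_cons_of_ne_nil (hvh hne)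
              rw [hb] at h5
              simp [tag] at h5
            · apply hcont hne
              rw [hw2c]
              obtain ⟨b, bs, hb⟩ := List.exists_cons_of_ne_nil hRf
              intro y hy a hya
              simp only [List.map_cons, List.flatten_cons, GG, tag, hb, List.cons_append,
                List.head?_cons, Option.mem_def, Option.some.injEq] at hy
              rw [hya] at hy
              simp only [Sum.inl.injEq, Prod.mk.injEq] at hy
              exact ht hy.1.symm

theorem reach_of_sol (hp : 2 ≤ p) (hg : ∀ τ, g τ ≠ []) (hh : ∀ τ, h τ ≠ []) (hRf : Rf ≠ [])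
    (hR0 : R0 ≠ [])
    (hs : ∃ w : List (T ⊕ Bool), w ≠ [] ∧
      (w.map (GG lay g Rf)).flatten = (w.map (HH p lay h R0)).flatten) :
    Reach p lay g h Rf 0 R0 := by
  obtain ⟨w, hw, hEq⟩ := hs
  have hnx : ∀ t, nxt p t ≠ t := by
    intro t
    unfold nxt
    split_ifs with h1
    · omega
    · omega
  cases w with
  | nil => exact absurd rfl hw
  | cons x w =>
    cases x with
    | inl τ =>
      exfalso
      obtain ⟨b, bs, hb⟩ := List.exists_cons_of_ne_nil (hg τ)
      obtain ⟨d, ds, hd⟩ := List.exists_cons_of_ne_nil (hh τ)
      simp only [List.map_cons, List.flatten_cons, GG, HH, tag, hb, hd, List.cons_append,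
        List.cons.injEq, Sum.inl.injEq, Prod.mk.injEq] at hEq
      exact hnx _ hEq.1.1.symm
    | inr b =>
      cases b with
      | true =>
        exfalso
        obtain ⟨b, bs, hb⟩ := List.exists_cons_of_ne_nil hRf
        simp [GG, HH, tag, hb] at hEq
      | false =>
        simp only [List.map_cons, List.flatten_cons, GG, HH, List.cons_append, List.nil_append,
          List.cons.injEq, true_and] at hEq
        exact reach_of_eq hp hg hh hRf w.length w le_rfl 0 R0 hR0 hEq.symm

end Layered

end Pool.Agent.Helper79.Pcp
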