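import Pool.Agent.Helper79.PcpLayers

/-! # Gadgets -/

set_option autoImplicit false

namespace Pool.Agent.Helper79.Pcp

open Layer

/-- the main letters of rows -/
inductive Main (Γ S : Type) where
  | beg : Main Γ S
  | fin : Main Γ S
  | lt : Γ → Main Γ S
  | rt : Γ → Main Γ S
  | st : S → Main Γ S

/-- all letters of rows -/
inductive Lt (Γ S : Type) where
  | m : Main Γ S → Lt Γ S
  | c : Lt Γ S
  | q : Lt Γ S
  | a : Lt Γ S
  | x0 : Lt Γ S
  | x1 : Lt Γ S
  | r0 : Lt Γ S
  | r1 : Lt Γ S

variable {Γ S : Type}

/-- auxiliary injection -/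
def Main.enc : Main Γ S → Bool ⊕ (Bool × Γ) ⊕ S
  | .beg => .inl false
  | .fin => .inl true
  | .lt v => .inr (.inl (false, v))
  | .rt v => .inr (.inl (true, v))
  | .st s => .inr (.inr s)

lemma Main.enc_inj : Function.Injective (Main.enc (Γ := Γ) (S := S)) := by
  intro x y h
  cases x <;> cases y <;> simp_all [Main.enc]

instance [Finite Γ] [Finite S] : Finite (Main Γ S) := Finite.of_injective _ Main.enc_inj

/-- auxiliary injection -/
def Lt.enc : Lt Γ S → Main Γ S ⊕ Fin 7
  | .m x => .inl x
  | .c => .inr 0
  | .q => .inr 1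
  | .a => .inr 2
  | .x0 => .inr 3
  | .x1 => .inr 4
  | .r0 => .inr 5
  | .r1 => .inr 6

lemma Lt.enc_inj : Function.Injective (Lt.enc (Γ := Γ) (S := S)) := by
  intro x y h
  cases x <;> cases y <;> first
    | rfl
    | (simp only [Lt.enc, Sum.inl.injEq] at h; rw [h])
    | (exfalso; revert h; simp [Lt.enc])

instance [Finite Γ] [Finite S] : Finite (Lt Γ S) := Finite.of_injective _ Lt.enc_inj

/-- rows of main letters -/
def mrow (l : List Γ) (s : S) (r : List Γ) : List (Main Γ S) :=
  Main.beg :: (l.reverse.map Main.lt ++ Main.st s :: (r.map Main.rt ++ [Main.fin]))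

/-- rows -/
def row (l : List Γ) (s : S) (r : List Γ) : List (Lt Γ S) := (mrow l s r).map Lt.m

lemma flatten_single {α β : Type} (f : α → β) (v : List α) :
    (v.map fun x => [f x]).flatten = v.map f := by
  induction v with
  | nil => rfl
  | cons a v ih => simp [ih]

/-! ### injectivity of rows -/

lemma mrow_inj {l l' : List Γ} {s s' : S} {r r' : List Γ} (h : mrow l s r = mrow l' s' r') :
    l = l' ∧ s = s' ∧ r = r' := by
  simp only [mrow, List.cons.injEq, true_and] at h
  have key : ∀ (a b : List Γ) (X Y : List (Main Γ S)), a.map Main.lt ++ Main.st s :: X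
      = b.map Main.lt ++ Main.st s' :: Y → a = b ∧ s = s' ∧ X = Y := by
    intro a
    induction a with
    | nil =>
      intro b X Y h
      cases b with
      | nil => simpa using h
      | cons b bs => simp at h
    | cons a as ih =>
      intro b X Y h
      cases b with
      | nil => simp at h
      | cons b bs =>
        simp only [List.map_cons, List.cons_append, List.cons.injEq, Main.lt.injEq] at h
        obtain ⟨h1, h2, h3⟩ := ih _ _ _ h.2
        exact ⟨by rw [h.1, h1], h2, h3⟩
  obtain ⟨h1, h2, h3⟩ := key _ _ _ _ h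
  refine ⟨List.reverse_injective h1, h2, ?_⟩
  have h4 := List.append_cancel_right h3
  exact (List.map_injective_iff.2 (fun a b h => by injection h)) h4

lemma row_inj {l l' : List Γ} {s s' : S} {r r' : List Γ} (h : row l s r = row l' s' r') :
    l = l' ∧ s = s' ∧ r = r' :=
  mrow_inj ((List.map_injective_iff.2 (fun a b h => by injection h)) h)

/-! ### the pop gadget -/

section Pop

variable [DecidableEq Γ] [DecidableEq S] (j e : S) (u : Γ)

/-- outputs of layer 1 -/
def h1 : Main Γ S → List (Lt Γ S)
  | .beg => [.m .beg]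
  | .fin => [.x0, .m .fin]
  | .lt v => [.m (.lt v)]
  | .rt v => if v = u then [.x1, .c] else [.x0, .m (.rt v), .c]
  | .st s => if s = j then [.a, .q] else [.m (.st s), .c]

/-- inputs of layer 2 -/
def g2 : Option (Main Γ S) ⊕ Bool × Bool → List (Lt Γ S)
  | .inl (some x) => [.m x]
  | .inl none => [.a]
  | .inr (false, false) => [.c, .x0]
  | .inr (false, true) => [.c, .x1]
  | .inr (true, false) => [.q, .x0]
  | .inr (true, true) => [.q, .x1]

/-- outputs of layer 2 -/
def h2 : Option (Main Γ S) ⊕ Bool × Bool → List (Lt Γ S)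
  | .inl (some x) => [.m x]
  | .inl none => [.a]
  | .inr (false, false) => [.x0]
  | .inr (false, true) => [.x1]
  | .inr (true, false) => [.r0, .x0]
  | .inr (true, true) => [.r1]

/-- inputs of layer 3 -/
def g3 : Main Γ S → List (Lt Γ S)
  | .beg => [.m .beg]
  | .fin => [.x0, .m .fin]
  | .lt v => [.m (.lt v)]
  | .rt v => if v = u then [.x1] else [.x0, .m (.rt v)]
  | .st s => if s = e then [.a, .r1] else if s = j then [.a, .r0] else [.m (.st s)]

/-- layer 1 -/
def lay1 : Layer (Lt Γ S) := ⟨Main Γ S, fun x => [.m x], h1 j u⟩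

/-- layer 2 -/
def lay2 : Layer (Lt Γ S) := ⟨Option (Main Γ S) ⊕ Bool × Bool, g2, h2⟩

/-- layer 3 -/
def lay3 : Layer (Lt Γ S) := ⟨Main Γ S, g3 j e u, fun x => [.m x]⟩

omit [DecidableEq Γ] [DecidableEq S] in
lemma ud_m : UD (fun x : Main Γ S => [Lt.m x]) := by
  intro v v' h
  rw [flatten_single, flatten_single] at h
  exact (List.map_injective_iff.2 (fun a b h => by injection h)) h

omit [DecidableEq Γ] [DecidableEq S] in
lemma priv_m : Priv (fun x : Main Γ S => [Lt.m x]) := by
  refine ⟨Lt.m, fun i => by simp, fun i j hij hcon => ?_⟩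
  simp only [List.mem_singleton, Lt.m.injEq] at hcon
  exact hij hcon.1

lemma good1 [Finite Γ] [Finite S] : (lay1 j u).Good where
  fin := inferInstanceAs (Finite (Main Γ S))
  gne := fun i => by simp [lay1]
  hne := fun i => by
    change h1 j u i ≠ []
    cases i <;> simp only [h1] <;> (try split_ifs) <;> simp
  detg := ud_m
  deth := by
    refine UD_of_prefixFree (fun i => ?_) ?_
    · change h1 j u i ≠ []
      cases i <;> simp only [h1] <;> (try split_ifs) <;> simp
    · intro x y h
      change h1 j u x <+: h1 j u y at h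
      cases x <;> cases y <;> simp only [h1] at h <;> (try split_ifs at h) <;> simp_all
  pg := priv_m
  ph := by
    refine ⟨fun x => match x with
      | .beg => .m .beg
      | .fin => .m .fin
      | .lt v => .m (.lt v)
      | .rt v => if v = u then .x1 else .m (.rt v)
      | .st s => if s = j then .q else .m (.st s), fun x => ?_, fun x y hxy hcon => ?_⟩
    · change _ ∈ h1 j u x
      cases x <;> simp only [h1] <;> (try split_ifs) <;> simp
    · change _ ∈ h1 j u y ∧ _ ∈ h1 j u x at hcon
      obtain ⟨hc1, hc2⟩ := hcon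
      apply hxy
      clear hc2 hxy
      cases x <;> cases y <;> simp only [h1] at hc1 <;> (try split_ifs at hc1) <;>
        simp at hc1 <;> simp_all

lemma good2 [Finite Γ] [Finite S] : (lay2 (Γ := Γ) (S := S)).Good where
  fin := inferInstanceAs (Finite (Option (Main Γ S) ⊕ Bool × Bool))
  gne := fun i => by
    change g2 i ≠ []
    rcases i with (_ | x) | ⟨_ | _, _ | _⟩ <;> simp [g2]
  hne := fun i => by
    change h2 i ≠ []
    rcases i with (_ | x) | ⟨_ | _, _ | _⟩ <;> simp [h2]
  detg := by
    refine UD_of_prefixFree (fun i => ?_) ?_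
    · change g2 i ≠ []
      rcases i with (_ | x) | ⟨_ | _, _ | _⟩ <;> simp [g2]
    · intro x y h
      change g2 x <+: g2 y at h
      rcases x with (_ | x) | ⟨_ | _, _ | _⟩ <;> rcases y with (_ | y) | ⟨_ | _, _ | _⟩ <;>
        simp_all [g2]
  deth := by
    refine UD_of_prefixFree (fun i => ?_) ?_
    · change h2 i ≠ []
      rcases i with (_ | x) | ⟨_ | _, _ | _⟩ <;> simp [h2]
    · intro x y h
      change h2 x <+: h2 y at h
      rcases x with (_ | x) | ⟨_ | _, _ | _⟩ <;> rcases y with (_ | y) | ⟨_ | _, _ | _⟩ <;>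
        simp_all [h2]
  pg := by
    refine ⟨fun x => match x with
      | .inl (some x) => .m x
      | .inl none => .a
      | .inr (false, false) => .x0
      | .inr (false, true) => .c
      | .inr (true, false) => .q
      | .inr (true, true) => .x1, fun x => ?_, fun x y hxy hcon => ?_⟩
    · change _ ∈ g2 x
      rcases x with (_ | x) | ⟨_ | _, _ | _⟩ <;> simp [g2]
    · change _ ∈ g2 y ∧ _ ∈ g2 x at hcon
      obtain ⟨hc1, hc2⟩ := hcon
      apply hxy
      clear hxy
      rcases x with (_ | x) | ⟨_ | _, _ | _⟩ <;> rcases y with (_ | y) | ⟨_ | _, _ | _⟩ <;>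
        simp [g2] at hc1 hc2 ⊢ <;> simp_all
  ph := by
    refine ⟨fun x => match x with
      | .inl (some x) => .m x
      | .inl none => .a
      | .inr (false, false) => .x0
      | .inr (false, true) => .x1
      | .inr (true, false) => .r0
      | .inr (true, true) => .r1, fun x => ?_, fun x y hxy hcon => ?_⟩
    · change _ ∈ h2 x
      rcases x with (_ | x) | ⟨_ | _, _ | _⟩ <;> simp [h2]
    · change _ ∈ h2 y ∧ _ ∈ h2 x at hcon
      obtain ⟨hc1, hc2⟩ := hcon
      apply hxy
      clear hxy
      rcases x with (_ | x) | ⟨_ | _, _ | _⟩ <;> rcases y with (_ | y) | ⟨_ | _, _ | _⟩ <;>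
        simp [h2] at hc1 hc2 ⊢ <;> simp_all

lemma good3 [Finite Γ] [Finite S] : (lay3 j e u).Good where
  fin := inferInstanceAs (Finite (Main Γ S))
  gne := fun i => by
    change g3 j e u i ≠ []
    cases i <;> simp only [g3] <;> (try split_ifs) <;> simp
  hne := fun i => by simp [lay3]
  detg := by
    refine UD_of_prefixFree (fun i => ?_) ?_
    · change g3 j e u i ≠ []
      cases i <;> simp only [g3] <;> (try split_ifs) <;> simp
    · intro x y h
      change g3 j e u x <+: g3 j e u y at h
      cases x <;> cases y <;> simp only [g3] at h <;> (try split_ifs at h) <;> simp_all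
  deth := ud_m
  pg := by
    refine ⟨fun x => match x with
      | .beg => .m .beg
      | .fin => .m .fin
      | .lt v => .m (.lt v)
      | .rt v => if v = u then .x1 else .m (.rt v)
      | .st s => if s = e then .r1 else if s = j then .r0 else .m (.st s),
      fun x => ?_, fun x y hxy hcon => ?_⟩
    · change _ ∈ g3 j e u x
      cases x <;> simp only [g3] <;> (try split_ifs) <;> simp
    · change _ ∈ g3 j e u y ∧ _ ∈ g3 j e u x at hcon
      obtain ⟨hc1, hc2⟩ := hcon
      apply hxy
      clear hc2 hxy
      cases x <;> cases y <;> simp only [g3] at hc1 <;> (try split_ifs at hc1) <;>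
        simp at hc1 <;> simp_all
  ph := priv_m

/-- text after layer 1 -/
def txt1 : List Γ → List (Lt Γ S)
  | [] => [.x0, .m .fin]
  | v :: r => (if v = u then [.x1, .c] else [.x0, .m (.rt v), .c]) ++ txt1 r

/-- text after layer 2 -/
def txt2 : List Γ → List (Lt Γ S)
  | [] => [.x0, .m .fin]
  | v :: r => (if v = u then [.x1] else [.x0, .m (.rt v)]) ++ txt2 r

/-- tiles of layer 2 -/
def body : Bool → List Γ → List (Option (Main Γ S) ⊕ Bool × Bool)
  | b, [] => [.inr (b, false), .inl (some .fin)]
  | b, v :: r => (if v = u then [.inr (b, true)] else [.inr (b, false), .inl (some (.rt v))]) ++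
      body false r

/-- pending letter -/
def pend : Bool → Lt Γ S
  | false => .c
  | true => .q

lemma txt1_eq (r : List Γ) :
    ((r.map Main.rt ++ [Main.fin]).map (h1 j u)).flatten = txt1 u r := by
  induction r with
  | nil => rfl
  | cons v r ih =>
    simp only [List.map_cons, List.cons_append, List.flatten_cons, ih, txt1, h1]

lemma txt2_eq (r : List Γ) :
    ((r.map Main.rt ++ [Main.fin]).map (g3 j e u)).flatten = txt2 u r := by
  induction r with
  | nil => rfl
  | cons v r ih =>
    simp only [List.map_cons, List.cons_append, List.flatten_cons, ih, txt2, g3]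

lemma body_g (r : List Γ) : ∀ b, ((body (S := S) u b r).map g2).flatten = pend b :: txt1 u r := by
  induction r with
  | nil => intro b; cases b <;> rfl
  | cons v r ih =>
    intro b
    simp only [body, txt1]
    rw [List.map_append, List.flatten_append, ih]
    cases b <;> split_ifs <;> rfl

lemma body_h (r : List Γ) : ((body (S := S) u false r).map h2).flatten = txt2 u r := by
  induction r with
  | nil => rfl
  | cons v r ih =>
    simp only [body, txt2]
    rw [List.map_append, List.flatten_append, ih]
    split_ifs <;> rfl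

lemma body_h_pop (r : List Γ) :
    ((body (S := S) u true (u :: r)).map h2).flatten = .r1 :: txt2 u r := by
  simp only [body, if_true]
  rw [List.map_append, List.flatten_append, body_h]
  rfl

lemma body_h_skip (r : List Γ) (hr : r.head? ≠ some u) :
    ((body (S := S) u true r).map h2).flatten = .r0 :: txt2 u r := by
  cases r with
  | nil => rfl
  | cons v r =>
    have hv : v ≠ u := fun h => hr (by rw [h]; rfl)
    simp only [body, txt2]
    rw [List.map_append, List.flatten_append, body_h, if_neg hv, if_neg hv]
    rfl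

lemma left_eq (f : Main Γ S → List (Lt Γ S)) (hf : ∀ v, f (.lt v) = [.m (.lt v)]) (l : List Γ) :
    ((l.map Main.lt).map f).flatten = l.map fun v => Lt.m (.lt v) := by
  induction l with
  | nil => rfl
  | cons v l ih =>
    simp only [List.map_cons, List.flatten_cons, hf, ih]
    rfl

lemma left2_eq (f : Option (Main Γ S) ⊕ Bool × Bool → List (Lt Γ S))
    (hf : ∀ v, f (.inl (some (.lt v))) = [.m (.lt v)]) (l : List Γ) :
    ((l.map fun v => .inl (some (Main.lt v))).map f).flatten = l.map fun v => Lt.m (.lt v) := by
  induction l with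
  | nil => rfl
  | cons v l ih =>
    simp only [List.map_cons, List.flatten_cons, hf, ih]
    rfl

/-- the right pop gadget -/
def popR : List (Layer (Lt Γ S)) := [lay1 j u, lay2, lay3 j e u]

lemma popR_good [Finite Γ] [Finite S] : ∀ T ∈ popR j e u, T.Good := by
  intro T hT
  simp only [popR, List.mem_cons, List.not_mem_nil, or_false] at hT
  rcases hT with rfl | rfl | rfl
  · exact good1 j u
  · exact good2
  · exact good3 j e u

lemma row_eq (l : List Γ) (s : S) (r : List Γ) : row l s r =
    Lt.m .beg :: ((l.reverse.map fun v => Lt.m (.lt v)) ++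
      (Lt.m (.st s) :: (r.map Main.rt ++ [Main.fin]).map Lt.m)) := by
  simp [row, mrow]

/-- intermediate row 1 -/
lemma rew1 (l : List Γ) (s : S) (r : List Γ) : (lay1 j u).Rew (row l s r)
    (Lt.m .beg :: ((l.reverse.map fun v => Lt.m (.lt v)) ++
      (if s = j then [.a, .q] else [.m (.st s), .c]) ++ txt1 u r)) := by
  refine ⟨mrow l s r, ?_, ?_⟩
  · exact flatten_single _ _
  · change ((mrow l s r).map (h1 j u)).flatten = _
    unfold mrow
    rw [List.map_cons, List.flatten_cons, List.map_append, List.flatten_append, List.map_cons,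
      List.flatten_cons, txt1_eq, left_eq _ (fun v => rfl)]
    simp only [h1, List.cons_append, List.nil_append, List.append_assoc]

/-- layer 2, generic -/
lemma rew2 (l : List Γ) (x : Lt Γ S) (x' : Option (Main Γ S))
    (hx : g2 (.inl x') = [x]) (hx' : h2 (.inl x') = [x]) (b : Bool) (r : List Γ)
    (R : List (Lt Γ S)) (hR : ((body (S := S) u b r).map h2).flatten = R) :
    (lay2 (Γ := Γ) (S := S)).Rew
      (Lt.m .beg :: ((l.reverse.map fun v => Lt.m (.lt v)) ++ [x, pend b] ++ txt1 u r))
      (Lt.m .beg :: ((l.reverse.map fun v => Lt.m (.lt v)) ++ x :: R)) := by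
  let w : List (Option (Main Γ S) ⊕ Bool × Bool) :=
    .inl (some .beg) :: ((l.reverse.map fun v => .inl (some (Main.lt v))) ++
    .inl x' :: body u b r)
  have e1 : (w.map g2).flatten =
      Lt.m .beg :: ((l.reverse.map fun v => Lt.m (.lt v)) ++ [x, pend b] ++ txt1 u r) := by
    rw [List.map_cons, List.flatten_cons, List.map_append, List.flatten_append, List.map_cons,
      List.flatten_cons, body_g, left2_eq _ (fun v => rfl), hx]
    simp [g2]
  have e2 : (w.map h2).flatten =
      Lt.m .beg :: ((l.reverse.map fun v => Lt.m (.lt v)) ++ x :: R) := by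
    rw [List.map_cons, List.flatten_cons, List.map_append, List.flatten_append, List.map_cons,
      List.flatten_cons, hR, left2_eq _ (fun v => rfl), hx']
    simp [h2]
  exact ⟨w, e1, e2⟩

/-- layer 3 -/
lemma rew3 (l : List Γ) (s : S) (r : List Γ) : (lay3 j e u).Rew
    (Lt.m .beg :: ((l.reverse.map fun v => Lt.m (.lt v)) ++
      (g3 j e u (.st s) ++ txt2 u r))) (row l s r) := by
  refine ⟨mrow l s r, ?_, ?_⟩
  · change ((mrow l s r).map (g3 j e u)).flatten = _
    unfold mrow
    rw [List.map_cons, List.flatten_cons, List.map_append, List.flatten_append, List.map_cons,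
      List.flatten_cons, txt2_eq, left_eq _ (fun v => rfl)]
    simp [g3]
  · exact flatten_single _ _

lemma popR_pop (l r : List Γ) : Runs (popR j e u) (row l j (u :: r)) (row l e r) := by
  refine ⟨_, rew1 j u l j (u :: r), ?_⟩
  rw [if_pos rfl]
  refine ⟨_, rew2 u l .a none rfl rfl true (u :: r) _ (body_h_pop u r), ?_⟩
  refine ⟨_, ?_, rfl⟩
  have := rew3 j e u l e r
  simpa [g3] using this

lemma popR_skip (l : List Γ) (s : S) (r : List Γ) (h1 : s ≠ j) (h2 : s ≠ e) :
    Runs (popR j e u) (row l s r) (row l s r) := by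
  refine ⟨_, rew1 j u l s r, ?_⟩
  rw [if_neg h1]
  refine ⟨_, rew2 u l (.m (.st s)) (some (.st s)) rfl rfl false r _ (body_h u r), ?_⟩
  refine ⟨_, ?_, rfl⟩
  have := rew3 j e u l s r
  simpa [g3, h1, h2] using this

lemma popR_skip2 (l : List Γ) (r : List Γ) (hje : j ≠ e) (hr : r.head? ≠ some u) :
    Runs (popR j e u) (row l j r) (row l j r) := by
  refine ⟨_, rew1 j u l j r, ?_⟩
  rw [if_pos rfl]
  refine ⟨_, rew2 u l .a none rfl rfl true r _ (body_h_skip u r hr), ?_⟩
  refine ⟨_, ?_, rfl⟩
  have := rew3 j e u l j r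
  simpa [g3, hje] using this

end Pop

/-! ### mirror -/

/-- mirror of main letters -/
def msw : Main Γ S → Main Γ S
  | .beg => .fin
  | .fin => .beg
  | .lt v => .rt v
  | .rt v => .lt v
  | .st s => .st s

/-- mirror of letters -/
def lsw : Lt Γ S → Lt Γ S
  | .m x => .m (msw x)
  | x => x

lemma msw_msw (x : Main Γ S) : msw (msw x) = x := by cases x <;> rfl

lemma lsw_lsw (x : Lt Γ S) : lsw (lsw x) = x := by
  cases x <;> simp [lsw, msw_msw]

lemma lsw_inj : Function.Injective (lsw (Γ := Γ) (S := S)) :=
  Function.LeftInverse.injective lsw_lsw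

lemma row_mir (l : List Γ) (s : S) (r : List Γ) :
    ((row l s r).map lsw).reverse = row r s l := by
  simp [row, mrow, lsw, msw, Function.comp_def]

/-! ### the change of state -/

section Nop

variable (j e : S)

open Classical in
/-- exchange of two states -/
noncomputable def swp : Main Γ S → Main Γ S := fun x =>
  if x = .st j then .st e else if x = .st e then .st j else x

lemma swp_swp (x : Main Γ S) : swp j e (swp j e x) = x := by
  by_cases h1 : x = .st j
  · subst h1
    by_cases h2 : e = j
    · subst h2
      simp [swp]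
    · simp [swp, h2]
  · by_cases h2 : x = .st e
    · subst h2
      have h3 : e ≠ j := fun h => h1 (by rw [h])
      simp [swp, h3]
    · simp [swp, h1, h2]

lemma swp_inj : Function.Injective (swp (Γ := Γ) j e) :=
  Function.LeftInverse.injective (swp_swp j e)

/-- the change of state gadget -/
noncomputable def nopG : List (Layer (Lt Γ S)) :=
  [⟨Main Γ S, fun x => [.m x], fun x => [.m (swp j e x)]⟩]

lemma nopG_good [Finite Γ] [Finite S] : ∀ T ∈ nopG (Γ := Γ) j e, T.Good := by
  intro T hT
  simp only [nopG, List.mem_cons, List.not_mem_nil, or_false] at hT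
  subst hT
  refine ⟨inferInstanceAs (Finite (Main Γ S)), fun i => by simp, fun i => by simp,
    ?_, ?_, ?_, ?_⟩
  · intro v v' h
    rw [flatten_single, flatten_single] at h
    exact (List.map_injective_iff.2 (fun a b h => by injection h)) h
  · intro v v' h
    rw [flatten_single, flatten_single] at h
    exact (List.map_injective_iff.2 (fun a b h => swp_inj j e (by injection h))) h
  · refine ⟨Lt.m, fun i => by simp, fun i j hij hcon => ?_⟩
    simp only [List.mem_singleton, Lt.m.injEq] at hcon
    exact hij hcon.1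
  · refine ⟨fun x => Lt.m (swp j e x), fun i => by simp, fun i j' hij hcon => ?_⟩
    simp only [List.mem_singleton, Lt.m.injEq] at hcon
    exact hij (swp_inj j e hcon.1)

lemma nop_run (l : List Γ) (s s' : S) (r : List Γ) (h : swp (Γ := Γ) j e (.st s) = .st s') :
    Runs (nopG j e) (row l s r) (row l s' r) := by
  refine Runs.single ⟨mrow l s r, flatten_single _ _, ?_⟩
  change (List.map (fun x => [Lt.m (swp j e x)]) (mrow l s r)).flatten = _
  rw [flatten_single]
  have h1 : swp j e (Main.beg : Main Γ S) = .beg := by simp [swp]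
  have h2 : swp j e (Main.fin : Main Γ S) = .fin := by simp [swp]
  have h3 : ∀ v : Γ, swp j e (Main.lt v : Main Γ S) = .lt v := by simp [swp]
  have h4 : ∀ v : Γ, swp j e (Main.rt v : Main Γ S) = .rt v := by simp [swp]
  simp [row, mrow, h, h1, h2, h3, h4, Function.comp_def]

lemma nop_pop (l r : List Γ) : Runs (nopG j e) (row l j r) (row l e r) :=
  nop_run j e l j e r (by simp [swp])

lemma nop_skip (l : List Γ) (s : S) (r : List Γ) (h1 : s ≠ j) (h2 : s ≠ e) :
    Runs (nopG j e) (row l s r) (row l s r) :=
  nop_run j e l s s r (by simp [swp, h1, h2])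

end Nop

end Pool.Agent.Helper79.Pcp
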