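import Pool.Agent.Helper79.PcpBasic

/-! # Layers -/

set_option autoImplicit false

namespace Pool.Agent.Helper79.Pcp

/-- A layer: a finite family of tiles. -/
structure Layer (L : Type) where
  ι : Type
  g : ι → List L
  h : ι → List L

namespace Layer

variable {L : Type}

/-- private letters -/
def Priv {ι L : Type} (w : ι → List L) : Prop :=
  ∃ p : ι → L, (∀ i, p i ∈ w i) ∧ ∀ i j, i ≠ j → ¬ (p i ∈ w j ∧ p j ∈ w i)

/-- unique decodability -/
def UD {ι L : Type} (w : ι → List L) : Prop :=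
  ∀ v v' : List ι, (v.map w).flatten = (v'.map w).flatten → v = v'

/-- good layers -/
structure Good (T : Layer L) : Prop where
  fin : Finite T.ι
  gne : ∀ i, T.g i ≠ []
  hne : ∀ i, T.h i ≠ []
  detg : UD T.g
  deth : UD T.h
  pg : Priv T.g
  ph : Priv T.h

/-- rewriting of rows -/
def Rew (T : Layer L) (R R' : List L) : Prop :=
  ∃ v : List T.ι, (v.map T.g).flatten = R ∧ (v.map T.h).flatten = R'

/-- inverse layer -/
def inv (T : Layer L) : Layer L := ⟨T.ι, T.h, T.g⟩

/-- mirror layer -/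
def mir (sw : L → L) (T : Layer L) : Layer L :=
  ⟨T.ι, fun i => ((T.g i).map sw).reverse, fun i => ((T.h i).map sw).reverse⟩

lemma Good.inv {T : Layer L} (hT : T.Good) : T.inv.Good :=
  ⟨hT.fin, hT.hne, hT.gne, hT.deth, hT.detg, hT.ph, hT.pg⟩

lemma map_rev_flatten {ι : Type} (w : ι → List L) (sw : L → L) (v : List ι) :
    (v.map fun i => ((w i).map sw).reverse).flatten
      = (((v.reverse.map w).flatten).map sw).reverse := by
  induction v with
  | nil => rfl
  | cons a v ih =>
    rw [List.map_cons, List.flatten_cons, ih, List.reverse_cons, List.map_append,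
      List.flatten_append, List.map_append, List.reverse_append]
    simp

lemma UD.mir {ι : Type} {w : ι → List L} {sw : L → L} (hsw : Function.Injective sw)
    (hw : UD w) : UD fun i => ((w i).map sw).reverse := by
  intro v v' hEq
  rw [map_rev_flatten, map_rev_flatten] at hEq
  have h1 := List.reverse_injective hEq
  have h2 := (List.map_injective_iff.2 hsw) h1
  exact List.reverse_injective (hw _ _ h2)

lemma Priv.mir {ι : Type} {w : ι → List L} {sw : L → L} (hsw : Function.Injective sw)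
    (hw : Priv w) : Priv fun i => ((w i).map sw).reverse := by
  obtain ⟨p, h1, h2⟩ := hw
  refine ⟨fun i => sw (p i), fun i => ?_, fun i j hij hcon => h2 i j hij ?_⟩
  · simp only [List.mem_reverse, List.mem_map]
    exact ⟨p i, h1 i, rfl⟩
  · simp only [List.mem_reverse, List.mem_map] at hcon
    obtain ⟨⟨a, ha, ha'⟩, ⟨b, hb, hb'⟩⟩ := hcon
    rw [hsw ha'] at ha
    rw [hsw hb'] at hb
    exact ⟨ha, hb⟩

lemma Good.mir {T : Layer L} {sw : L → L} (hsw : Function.Injective sw) (hT : T.Good) :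
    (T.mir sw).Good := by
  refine ⟨hT.fin, fun i => ?_, fun i => ?_, hT.detg.mir hsw, hT.deth.mir hsw, hT.pg.mir hsw,
    hT.ph.mir hsw⟩
  · simpa [Layer.mir] using hT.gne i
  · simpa [Layer.mir] using hT.hne i

lemma Rew.inv {T : Layer L} {R R' : List L} (h : T.Rew R R') : T.inv.Rew R' R := by
  obtain ⟨v, h1, h2⟩ := h
  exact ⟨v, h2, h1⟩

lemma Rew.mir {T : Layer L} {sw : L → L} {R R' : List L} (h : T.Rew R R') :
    (T.mir sw).Rew (R.map sw).reverse (R'.map sw).reverse := by
  obtain ⟨v, h1, h2⟩ := h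
  refine ⟨v.reverse, ?_, ?_⟩
  · change (v.reverse.map fun i => ((T.g i).map sw).reverse).flatten = _
    rw [map_rev_flatten, List.reverse_reverse, h1]
  · change (v.reverse.map fun i => ((T.h i).map sw).reverse).flatten = _
    rw [map_rev_flatten, List.reverse_reverse, h2]

/-- prefix-free families are uniquely decodable -/
lemma UD_of_prefixFree {ι : Type} {w : ι → List L} (hne : ∀ i, w i ≠ [])
    (hpf : ∀ i j, w i <+: w j → i = j) : UD w := by
  intro v
  induction v with
  | nil =>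
    intro v' hEq
    cases v' with
    | nil => rfl
    | cons a v' =>
      exfalso
      simp only [List.map_nil, List.flatten_nil, List.map_cons, List.flatten_cons] at hEq
      exact hne a (List.append_eq_nil_iff.1 hEq.symm).1
  | cons a v ih =>
    intro v' hEq
    cases v' with
    | nil =>
      exfalso
      simp only [List.map_nil, List.flatten_nil, List.map_cons, List.flatten_cons] at hEq
      exact hne a (List.append_eq_nil_iff.1 hEq).1
    | cons b v' =>
      simp only [List.map_cons, List.flatten_cons] at hEq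
      have hab : a = b := by
        rcases List.prefix_or_prefix_of_prefix
          (⟨_, rfl⟩ : w a <+: w a ++ (v.map w).flatten) (⟨_, hEq.symm⟩ : w b <+: _) with h1 | h1
        · exact hpf a b h1
        · exact (hpf b a h1).symm
      subst hab
      rw [ih v' (List.append_cancel_left hEq)]

/-- composition of layers -/
def Runs : List (Layer L) → List L → List L → Prop
  | [], R, R' => R = R'
  | T :: Ts, R, R' => ∃ R1, T.Rew R R1 ∧ Runs Ts R1 R'

lemma Runs.append {Ts Us : List (Layer L)} {R R1 R' : List L} (h1 : Runs Ts R R1)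
    (h2 : Runs Us R1 R') : Runs (Ts ++ Us) R R' := by
  induction Ts generalizing R with
  | nil =>
    have : R = R1 := h1
    subst this
    exact h2
  | cons T Ts ih =>
    obtain ⟨R2, h3, h4⟩ := h1
    exact ⟨R2, h3, ih h4⟩

lemma Runs.single {T : Layer L} {R R' : List L} (h : T.Rew R R') : Runs [T] R R' :=
  ⟨R', h, rfl⟩

lemma Runs.inv {Ts : List (Layer L)} {R R' : List L} (h : Runs Ts R R') :
    Runs (Ts.reverse.map Layer.inv) R' R := by
  induction Ts generalizing R with
  | nil =>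
    have : R = R' := h
    exact this.symm
  | cons T Ts ih =>
    obtain ⟨R2, h3, h4⟩ := h
    rw [List.reverse_cons, List.map_append]
    exact (ih h4).append (Runs.single h3.inv)

lemma Runs.mir {Ts : List (Layer L)} {sw : L → L} {R R' : List L} (h : Runs Ts R R') :
    Runs (Ts.map (Layer.mir sw)) (R.map sw).reverse (R'.map sw).reverse := by
  induction Ts generalizing R with
  | nil =>
    have : R = R' := h
    subst this
    rfl
  | cons T Ts ih =>
    obtain ⟨R2, h3, h4⟩ := h
    exact ⟨_, h3.mir, ih h4⟩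

end Layer

section System

open Layer

variable {L : Type} (Ls : List (Layer L))

/-- tile type of the system -/
abbrev Tl : Type := Σ i : Fin Ls.length, (Ls.get i).ι

/-- layer of a tile -/
def tlay (τ : Tl Ls) : ℕ := τ.1

/-- first word -/
def tg (τ : Tl Ls) : List L := (Ls.get τ.1).g τ.2

/-- second word -/
def th (τ : Tl Ls) : List L := (Ls.get τ.1).h τ.2

variable {Ls}

lemma rel_of_rew {t : ℕ} (ht : t < Ls.length) {R R' : List L} (h : (Ls.get ⟨t, ht⟩).Rew R R') :
    Rel (tlay Ls) (tg Ls) (th Ls) t R R' := by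
  obtain ⟨v, h1, h2⟩ := h
  refine ⟨v.map fun i => ⟨⟨t, ht⟩, i⟩, ?_, ?_, ?_⟩
  · intro τ hτ
    obtain ⟨i, _, rfl⟩ := List.mem_map.1 hτ
    rfl
  · rw [List.map_map, ← h1]
    rfl
  · rw [List.map_map, ← h2]
    rfl

lemma rew_of_rel {t : ℕ} {R R' : List L} (h : Rel (tlay Ls) (tg Ls) (th Ls) t R R')
    (ht : t < Ls.length) : (Ls.get ⟨t, ht⟩).Rew R R' := by
  obtain ⟨v, h0, h1, h2⟩ := h
  have : ∃ v' : List (Ls.get ⟨t, ht⟩).ι, v = v'.map fun i => ⟨⟨t, ht⟩, i⟩ := by
    clear h1 h2
    induction v with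
    | nil => exact ⟨[], rfl⟩
    | cons a v ih =>
      obtain ⟨v', hv'⟩ := ih (fun τ hτ => h0 τ (List.mem_cons_of_mem _ hτ))
      have ha := h0 a List.mem_cons_self
      obtain ⟨⟨a1, ha1⟩, a2⟩ := a
      have : a1 = t := ha
      subst this
      exact ⟨a2 :: v', by rw [hv']; rfl⟩
  obtain ⟨v', rfl⟩ := this
  refine ⟨v', ?_, ?_⟩
  · rw [← h1, List.map_map]
    rfl
  · rw [← h2, List.map_map]
    rfl

lemma rel_functional (hgood : ∀ T ∈ Ls, T.Good) {t : ℕ} (ht : t < Ls.length) {R R1 R2 : List L}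
    (h1 : Rel (tlay Ls) (tg Ls) (th Ls) t R R1) (h2 : Rel (tlay Ls) (tg Ls) (th Ls) t R R2) :
    R1 = R2 := by
  obtain ⟨v1, e1, f1⟩ := rew_of_rel h1 ht
  obtain ⟨v2, e2, f2⟩ := rew_of_rel h2 ht
  have := (hgood _ (List.get_mem Ls ⟨t, ht⟩)).detg v1 v2 (e1.trans e2.symm)
  rw [← f1, ← f2, this]

lemma nxt_lt {p t : ℕ} (ht : t < p) : nxt p t < p := by
  unfold nxt
  split_ifs with h
  · omega
  · omega

lemma nxt_iterate {p : ℕ} (hp : 0 < p) (n : ℕ) : (nxt p)^[n] 0 = n % p := by
  induction n with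
  | zero => simp
  | succ n ih =>
    rw [Function.iterate_succ_apply', ih]
    unfold nxt
    have h1 := Nat.mod_lt n hp
    have h2 : (n + 1) % p = (n % p + 1) % p := by rw [Nat.mod_add_mod]
    rw [h2]
    split_ifs with h
    · rw [h, Nat.mod_self]
    · exact (Nat.mod_eq_of_lt (by omega)).symm

lemma chain_functional (hgood : ∀ T ∈ Ls, T.Good) :
    ∀ (n : ℕ) {t : ℕ} (_ : t < Ls.length) {R R1 R2 : List L},
    Chain Ls.length (tlay Ls) (tg Ls) (th Ls) n t R R1 →
    Chain Ls.length (tlay Ls) (tg Ls) (th Ls) n t R R2 → R1 = R2 := by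
  intro n
  induction n with
  | zero => intro t ht R R1 R2 h1 h2; exact h1.symm.trans h2
  | succ n ih =>
    intro t ht R R1 R2 h1 h2
    obtain ⟨S1, a1, b1⟩ := h1
    obtain ⟨S2, a2, b2⟩ := h2
    have := rel_functional hgood ht a1 a2
    subst this
    exact ih (nxt_lt ht) b1 b2

lemma chain_append {T : Type} {p : ℕ} {lay : T → ℕ} {g h : T → List L} :
    ∀ (m n : ℕ) {t : ℕ} {R R1 R2 : List L}, Chain p lay g h m t R R1 →
    Chain p lay g h n ((nxt p)^[m] t) R1 R2 → Chain p lay g h (m + n) t R R2 := by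
  intro m
  induction m with
  | zero =>
    intro n t R R1 R2 h1 h2
    have : R = R1 := h1
    subst this
    simpa using h2
  | succ m ih =>
    intro n t R R1 R2 h1 h2
    obtain ⟨S, a, b⟩ := h1
    rw [Nat.add_right_comm]
    refine ⟨S, a, ih n b ?_⟩
    rwa [Function.iterate_succ_apply] at h2

lemma chain_of_runs_drop : ∀ (n k : ℕ), k + n = Ls.length → ∀ {R R' : List L},
    Runs (Ls.drop k) R R' → Chain Ls.length (tlay Ls) (tg Ls) (th Ls) n k R R' := by
  intro n
  induction n with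
  | zero =>
    intro k hk R R' h
    have : Ls.drop k = [] := List.drop_eq_nil_of_le (by omega)
    rw [this] at h
    exact h
  | succ n ih =>
    intro k hk R R' h
    have hlt : k < Ls.length := by omega
    rw [List.drop_eq_getElem_cons hlt] at h
    obtain ⟨R1, h1, h2⟩ := h
    refine ⟨R1, rel_of_rew hlt h1, ?_⟩
    by_cases hn : n = 0
    · subst hn
      have : Ls.drop (k + 1) = [] := List.drop_eq_nil_of_le (by omega)
      rw [this] at h2
      exact h2
    · have : nxt Ls.length k = k + 1 := by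
        unfold nxt
        rw [if_neg (by omega)]
      rw [this]
      exact ih (k + 1) (by omega) h2

lemma chain_of_runs {R R' : List L} (h : Runs Ls R R') :
    Chain Ls.length (tlay Ls) (tg Ls) (th Ls) Ls.length 0 R R' :=
  chain_of_runs_drop Ls.length 0 (by omega) (by simpa using h)

/-- macro steps give reachability -/
theorem reach_of_macro (hp : 0 < Ls.length) {R0 Rf : List L}
    (h : Relation.ReflTransGen (Runs Ls) R0 Rf) :
    Reach Ls.length (tlay Ls) (tg Ls) (th Ls) Rf 0 R0 := by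
  have h1 : ∃ n, Chain Ls.length (tlay Ls) (tg Ls) (th Ls) n 0 R0 Rf ∧
      (nxt Ls.length)^[n] 0 = 0 := by
    induction h with
    | refl => exact ⟨0, rfl, rfl⟩
    | tail _ hstep ih =>
      obtain ⟨n, h2, h3⟩ := ih
      refine ⟨n + Ls.length, chain_append n Ls.length h2 ?_, ?_⟩
      · rw [h3]
        exact chain_of_runs hstep
      · rw [Nat.add_comm, Function.iterate_add_apply, h3, nxt_iterate hp, Nat.mod_self]
  obtain ⟨n, h2, h3⟩ := h1
  exact reach_of_chain h2 h3

/-- an infinite macro run avoiding `Rf` excludes reachability -/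
theorem not_reach_of_infinite (hgood : ∀ T ∈ Ls, T.Good) (hp : 0 < Ls.length) {R0 Rf : List L}
    (c : ℕ → List L) (h0 : c 0 = R0) (hc : ∀ n, Runs Ls (c n) (c (n + 1)))
    (hf : ∀ n, c n ≠ Rf) : ¬ Reach Ls.length (tlay Ls) (tg Ls) (th Ls) Rf 0 R0 := by
  intro hr
  obtain ⟨n, h2, h3⟩ := chain_of_reach hr
  rw [nxt_iterate hp] at h3
  obtain ⟨k, rfl⟩ := Nat.dvd_of_mod_eq_zero h3
  have h4 : ∀ k, Chain Ls.length (tlay Ls) (tg Ls) (th Ls) (Ls.length * k) 0 R0 (c k) := by
    intro k
    induction k with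
    | zero => exact h0.symm
    | succ k ih =>
      rw [Nat.mul_succ]
      refine chain_append _ _ ih ?_
      rw [nxt_iterate hp, Nat.mul_mod_right]
      exact chain_of_runs (hc k)
  exact hf k (chain_functional hgood _ hp (h4 k) h2)

/-! ### elementarity of the whole family -/

lemma nxt_inj {p t s : ℕ} (ht : t < p) (hs : s < p) (h : nxt p t = nxt p s) : t = s := by
  unfold nxt at h
  split_ifs at h <;> omega

theorem priv_GG (hgood : ∀ T ∈ Ls, T.Good) (Rf : List L) :
    Priv (GG (tlay Ls) (tg Ls) Rf) := by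
  have h : ∀ i : Fin Ls.length, ∃ p : (Ls.get i).ι → L, (∀ j, p j ∈ (Ls.get i).g j) ∧
      ∀ j k, j ≠ k → ¬ (p j ∈ (Ls.get i).g k ∧ p k ∈ (Ls.get i).g j) :=
    fun i => (hgood _ (List.get_mem Ls i)).pg
  choose p hp1 hp2 using h
  refine ⟨fun x => match x with
    | Sum.inl τ => Sum.inl (tlay Ls τ, p τ.1 τ.2)
    | Sum.inr b => Sum.inr b, ?_, ?_⟩
  · rintro (τ | b)
    · simp only [GG, tag, List.mem_map]
      exact ⟨p τ.1 τ.2, hp1 _ _, rfl⟩
    · cases b
      · simp [GG]
      · simp [GG]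
  · rintro (τ | b) (σ | b') hne ⟨h1, h2⟩
    · simp only [GG, tag, List.mem_map, Sum.inl.injEq, Prod.mk.injEq] at h1 h2
      obtain ⟨a, ha, hl, hpa⟩ := h1
      obtain ⟨b, hb, _, hpb⟩ := h2
      subst hpa hpb
      obtain ⟨τ1, τ2⟩ := τ
      obtain ⟨σ1, σ2⟩ := σ
      have : τ1 = σ1 := Fin.ext hl.symm
      subst this
      refine hp2 τ1 τ2 σ2 (fun h => hne (by rw [h])) ⟨ha, hb⟩
    · cases b' <;> simp [GG, tag] at h2
    · cases b <;> simp [GG, tag] at h1
    · cases b <;> cases b' <;> simp [GG, tag] at hne h1 h2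

theorem priv_HH (hgood : ∀ T ∈ Ls, T.Good) (R0 : List L) :
    Priv (HH Ls.length (tlay Ls) (th Ls) R0) := by
  have h : ∀ i : Fin Ls.length, ∃ p : (Ls.get i).ι → L, (∀ j, p j ∈ (Ls.get i).h j) ∧
      ∀ j k, j ≠ k → ¬ (p j ∈ (Ls.get i).h k ∧ p k ∈ (Ls.get i).h j) :=
    fun i => (hgood _ (List.get_mem Ls i)).ph
  choose p hp1 hp2 using h
  refine ⟨fun x => match x with
    | Sum.inl τ => Sum.inl (nxt Ls.length (tlay Ls τ), p τ.1 τ.2)
    | Sum.inr b => Sum.inr b, ?_, ?_⟩
  · rintro (τ | b)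
    · simp only [HH, tag, List.mem_map]
      exact ⟨p τ.1 τ.2, hp1 _ _, rfl⟩
    · cases b
      · simp [HH]
      · simp [HH]
  · rintro (τ | b) (σ | b') hne ⟨h1, h2⟩
    · simp only [HH, tag, List.mem_map, Sum.inl.injEq, Prod.mk.injEq] at h1 h2
      obtain ⟨a, ha, hl, hpa⟩ := h1
      obtain ⟨b, hb, _, hpb⟩ := h2
      subst hpa hpb
      obtain ⟨τ1, τ2⟩ := τ
      obtain ⟨σ1, σ2⟩ := σ
      have : τ1 = σ1 := Fin.ext (nxt_inj τ1.2 σ1.2 hl.symm)
      subst this
      refine hp2 τ1 τ2 σ2 (fun h => hne (by rw [h])) ⟨ha, hb⟩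
    · cases b' <;> simp [HH, tag] at h2
    · cases b <;> simp [HH, tag] at h1
    · cases b <;> cases b' <;> simp [HH, tag] at hne h1 h2

end System

end Pool.Agent.Helper79.Pcp
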