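import Pool.Agent.Helper79.PcpGadgets

/-! # Reversible two-stack machines and their layered systems -/

set_option autoImplicit false

namespace Pool.Agent.Helper79.Pcp

open Layer

variable {Γ Q : Type}

/-- patterns: a state and possibly a side (`true` is right) and a top letter -/
abbrev Pat (Q Γ : Type) := Q × Option (Bool × Γ)

/-- configurations: a state, a left stack and a right stack -/
abbrev Cf (Q Γ : Type) := Q × List Γ × List Γ

/-- push the letter of a pattern -/
def fill : Option (Bool × Γ) → List Γ × List Γ → List Γ × List Γ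
  | none, x => x
  | some (false, v), x => (v :: x.1, x.2)
  | some (true, v), x => (x.1, v :: x.2)

/-- the configuration matched by a pattern, with the given remainder -/
def build (p : Pat Q Γ) (x : List Γ × List Γ) : Cf Q Γ := (p.1, fill p.2 x)

/-- orthogonal patterns -/
def Orth (p p' : Pat Q Γ) : Prop :=
  p.1 ≠ p'.1 ∨ ∃ b v v', p.2 = some (b, v) ∧ p'.2 = some (b, v') ∧ v ≠ v'

lemma Orth.symm {p p' : Pat Q Γ} (h : Orth p p') : Orth p' p := by
  rcases h with h | ⟨b, v, v', h1, h2, h3⟩
  · exact Or.inl h.symm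
  · exact Or.inr ⟨b, v', v, h2, h1, h3.symm⟩

section Phase

variable {ρ : Type}

/-- classical decidability -/
noncomputable abbrev cdec (α : Type) : DecidableEq α := Classical.decEq α

attribute [local instance] cdec

/-- the gadget of a pattern -/
noncomputable def gad (p : Pat Q Γ) (e : ρ) : List (Layer (Lt Γ (Q ⊕ ρ))) :=
  match p.2 with
  | none => nopG (.inl p.1) (.inr e)
  | some (true, u) => popR (.inl p.1) (.inr e) u
  | some (false, u) => (popR (.inl p.1) (.inr e) u).map (Layer.mir lsw)

/-- rows of configurations -/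
def crow {S : Type} (s : S) (x : List Γ × List Γ) : List (Lt Γ S) := row x.1 s x.2

lemma gad_good [Finite Γ] [Finite Q] [Finite ρ] (p : Pat Q Γ) (e : ρ) :
    ∀ T ∈ gad p e, T.Good := by
  intro T hT
  unfold gad at hT
  split at hT
  · exact nopG_good _ _ T hT
  · exact popR_good _ _ _ T hT
  · obtain ⟨T', hT', rfl⟩ := List.mem_map.1 hT
    exact (popR_good _ _ _ T' hT').mir lsw_inj

lemma gad_pop (p : Pat Q Γ) (e : ρ) (x : List Γ × List Γ) :
    Runs (gad p e) (crow (.inl p.1) (fill p.2 x)) (crow (.inr e) x) := by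
  unfold gad
  obtain ⟨p1, p2⟩ := p
  rcases p2 with _ | ⟨_ | _, u⟩
  · exact nop_pop _ _ _ _
  · have := (popR_pop (Sum.inl p1) (Sum.inr e : Q ⊕ ρ) u x.2 x.1).mir (sw := lsw)
    rw [row_mir, row_mir] at this
    exact this
  · have := (popR_pop (Sum.inl p1) (Sum.inr e : Q ⊕ ρ) u x.1 x.2)
    exact this

lemma gad_skip (p : Pat Q Γ) (e : ρ) (s : Q ⊕ ρ) (h1 : s ≠ .inl p.1) (h2 : s ≠ .inr e)
    (x : List Γ × List Γ) : Runs (gad p e) (crow s x) (crow s x) := by
  unfold gad
  obtain ⟨p1, p2⟩ := p
  rcases p2 with _ | ⟨_ | _, u⟩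
  · exact nop_skip _ _ _ _ _ h1 h2
  · have := (popR_skip (Sum.inl p1) (Sum.inr e : Q ⊕ ρ) u x.2 s x.1 h1 h2).mir (sw := lsw)
    rw [row_mir] at this
    exact this
  · have := (popR_skip (Sum.inl p1) (Sum.inr e : Q ⊕ ρ) u x.1 s x.2 h1 h2)
    exact this

lemma gad_orth (p p' : Pat Q Γ) (e : ρ) (h : Orth p p') (x : List Γ × List Γ) :
    Runs (gad p e) (crow (.inl p'.1) (fill p'.2 x)) (crow (.inl p'.1) (fill p'.2 x)) := by
  by_cases h0 : p.1 = p'.1
  · rcases h with h | ⟨b, v, v', h1, h2, h3⟩
    · exact absurd h0 h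
    · rw [← h0, h2]
      unfold gad
      rw [h1]
      cases b
      · have := (popR_skip2 (Sum.inl p.1) (Sum.inr e : Q ⊕ ρ) v x.2 (v' :: x.1) (by simp)
          (by simpa using h3.symm)).mir (sw := lsw)
        rw [row_mir] at this
        exact this
      · have := (popR_skip2 (Sum.inl p.1) (Sum.inr e : Q ⊕ ρ) v x.1 (v' :: x.2) (by simp)
          (by simpa using h3.symm))
        exact this
  · refine gad_skip p e _ (fun h => h0 ?_) (by simp) _
    exact (Sum.inl_injective h).symm

/-- the pop phase -/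
noncomputable def phase (P : ρ → Pat Q Γ) (idx : List ρ) : List (Layer (Lt Γ (Q ⊕ ρ))) :=
  idx.flatMap fun i => gad (P i) i

lemma phase_good [Finite Γ] [Finite Q] [Finite ρ] (P : ρ → Pat Q Γ) (idx : List ρ) :
    ∀ T ∈ phase P idx, T.Good := by
  intro T hT
  obtain ⟨i, _, h⟩ := List.mem_flatMap.1 hT
  exact gad_good _ _ T h

lemma phase_skip (P : ρ → Pat Q Γ) (hP : ∀ i j, i ≠ j → Orth (P i) (P j)) (i : ρ)
    (x : List Γ × List Γ) : ∀ (idx : List ρ), i ∉ idx →
    Runs (phase P idx) (crow (.inl (P i).1) (fill (P i).2 x))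
      (crow (.inl (P i).1) (fill (P i).2 x)) := by
  intro idx
  induction idx with
  | nil => intro _; rfl
  | cons k idx ih =>
    intro hk
    simp only [List.mem_cons, not_or] at hk
    exact (gad_orth (P k) (P i) k (hP k i (fun h => hk.1 h.symm)) x).append (ih hk.2)

lemma phase_done (P : ρ → Pat Q Γ) (i : ρ) (x : List Γ × List Γ) : ∀ (idx : List ρ), i ∉ idx →
    Runs (phase P idx) (crow (.inr i) x) (crow (.inr i) x) := by
  intro idx
  induction idx with
  | nil => intro _; rfl
  | cons k idx ih =>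
    intro hk
    simp only [List.mem_cons, not_or] at hk
    exact (gad_skip (P k) k (.inr i) (by simp) (fun h => hk.1 (Sum.inr_injective h)) x).append
      (ih hk.2)

lemma phase_pop (P : ρ → Pat Q Γ) (hP : ∀ i j, i ≠ j → Orth (P i) (P j)) (i : ρ)
    (x : List Γ × List Γ) (idx : List ρ) (hi : i ∈ idx) (hnd : idx.Nodup) :
    Runs (phase P idx) (crow (.inl (P i).1) (fill (P i).2 x)) (crow (.inr i) x) := by
  obtain ⟨l1, l2, rfl⟩ := List.append_of_mem hi
  have h1 : i ∉ l1 := fun h => by
    have := List.disjoint_of_nodup_append hnd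
    exact this h List.mem_cons_self
  have h2 : i ∉ l2 := (List.nodup_cons.1 (List.nodup_append.1 hnd).2.1).1
  unfold phase
  rw [List.flatMap_append, List.flatMap_cons]
  exact (phase_skip P hP i x l1 h1).append ((gad_pop (P i) i x).append
    (phase_done P i x l2 h2))

end Phase

/-- reversible two-stack machines -/
structure Mach (Q Γ : Type) where
  ρ : Type
  fin : Finite ρ
  src : ρ → Pat Q Γ
  tgt : ρ → Pat Q Γ
  osrc : ∀ i j, i ≠ j → Orth (src i) (src j)
  otgt : ∀ i j, i ≠ j → Orth (tgt i) (tgt j)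

namespace Mach

/-- a step -/
def Step (M : Mach Q Γ) (c c' : Cf Q Γ) : Prop :=
  ∃ i x, c = build (M.src i) x ∧ c' = build (M.tgt i) x

/-- an enumeration of the rules -/
noncomputable def idx (M : Mach Q Γ) : List M.ρ :=
  haveI := M.fin
  haveI := Fintype.ofFinite M.ρ
  Finset.univ.toList

lemma mem_idx (M : Mach Q Γ) (i : M.ρ) : i ∈ M.idx := by
  unfold idx
  simp

lemma nodup_idx (M : Mach Q Γ) : M.idx.Nodup := by
  unfold idx
  exact Finset.nodup_toList _

/-- layers of the machine -/
noncomputable def layers (M : Mach Q Γ) : List (Layer (Lt Γ (Q ⊕ M.ρ))) :=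
  phase M.src M.idx ++ (phase M.tgt M.idx).reverse.map Layer.inv

/-- the row of a configuration -/
def rowOf (M : Mach Q Γ) (c : Cf Q Γ) : List (Lt Γ (Q ⊕ M.ρ)) := crow (.inl c.1) c.2

lemma rowOf_inj (M : Mach Q Γ) {c c' : Cf Q Γ} (h : M.rowOf c = M.rowOf c') : c = c' := by
  obtain ⟨h1, h2, h3⟩ := row_inj h
  exact Prod.ext (Sum.inl_injective h2) (Prod.ext h1 h3)

lemma layers_good [Finite Γ] [Finite Q] (M : Mach Q Γ) : ∀ T ∈ M.layers, T.Good := by
  have := M.fin
  intro T hT
  unfold layers at hT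
  rcases List.mem_append.1 hT with h | h
  · exact phase_good _ _ T h
  · obtain ⟨T', hT', rfl⟩ := List.mem_map.1 h
    exact (phase_good _ _ T' (List.mem_reverse.1 hT')).inv

lemma step_runs (M : Mach Q Γ) {c c' : Cf Q Γ} (h : M.Step c c') :
    Runs M.layers (M.rowOf c) (M.rowOf c') := by
  obtain ⟨i, x, rfl, rfl⟩ := h
  exact (phase_pop M.src M.osrc i x M.idx (M.mem_idx i) M.nodup_idx).append
    (phase_pop M.tgt M.otgt i x M.idx (M.mem_idx i) M.nodup_idx).inv

end Mach

/-! ### forward, turn, backward -/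

/-- a pattern with a flag -/
def lift (b : Bool) (p : Pat Q Γ) : Pat (Q × Bool) Γ := ((p.1, b), p.2)

/-- a configuration with a flag -/
def liftC (b : Bool) (c : Cf Q Γ) : Cf (Q × Bool) Γ := ((c.1, b), c.2)

lemma lift_orth (b : Bool) {p p' : Pat Q Γ} (h : Orth p p') : Orth (lift b p) (lift b p') := by
  rcases h with h | h
  · exact Or.inl (fun h' => h (congrArg (fun z : Q × Bool => z.1) h'))
  · exact Or.inr h

lemma lift_orth' (b b' : Bool) (hb : b ≠ b') (p p' : Pat Q Γ) :
    Orth (lift b p) (lift b' p') :=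
  Or.inl (fun h' => hb (congrArg Prod.snd h'))

/-- the turning machine -/
def turn (M : Mach Q Γ) {η : Type} [Finite η] (hp : η → Pat Q Γ)
    (ho : ∀ i j, i ≠ j → Orth (hp i) (hp j)) (hs : ∀ i j, Orth (hp i) (M.src j)) :
    Mach (Q × Bool) Γ where
  ρ := (M.ρ ⊕ M.ρ) ⊕ η
  fin := by
    have := M.fin
    infer_instance
  src := fun
    | .inl (.inl i) => lift true (M.src i)
    | .inl (.inr i) => lift false (M.tgt i)
    | .inr k => lift true (hp k)
  tgt := fun
    | .inl (.inl i) => lift true (M.tgt i)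
    | .inl (.inr i) => lift false (M.src i)
    | .inr k => lift false (hp k)
  osrc := by
    rintro ((i | i) | k) ((j | j) | k') hne
    · exact lift_orth _ (M.osrc i j (fun h => hne (by rw [h])))
    · exact lift_orth' _ _ (by simp) _ _
    · exact lift_orth _ (hs k' i).symm
    · exact lift_orth' _ _ (by simp) _ _
    · exact lift_orth _ (M.otgt i j (fun h => hne (by rw [h])))
    · exact lift_orth' _ _ (by simp) _ _
    · exact lift_orth _ (hs k j)
    · exact lift_orth' _ _ (by simp) _ _
    · exact lift_orth _ (ho k k' (fun h => hne (by rw [h])))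
  otgt := by
    rintro ((i | i) | k) ((j | j) | k') hne
    · exact lift_orth _ (M.otgt i j (fun h => hne (by rw [h])))
    · exact lift_orth' _ _ (by simp) _ _
    · exact lift_orth' _ _ (by simp) _ _
    · exact lift_orth' _ _ (by simp) _ _
    · exact lift_orth _ (M.osrc i j (fun h => hne (by rw [h])))
    · exact lift_orth _ (hs k' i).symm
    · exact lift_orth' _ _ (by simp) _ _
    · exact lift_orth _ (hs k j)
    · exact lift_orth _ (ho k k' (fun h => hne (by rw [h])))

section Turn

variable (M : Mach Q Γ) {η : Type} [Finite η] (hp : η → Pat Q Γ)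
    (ho : ∀ i j, i ≠ j → Orth (hp i) (hp j)) (hs : ∀ i j, Orth (hp i) (M.src j))

lemma turn_fwd {c c' : Cf Q Γ} (h : M.Step c c') :
    (turn M hp ho hs).Step (liftC true c) (liftC true c') := by
  obtain ⟨i, x, rfl, rfl⟩ := h
  exact ⟨.inl (.inl i), x, rfl, rfl⟩

lemma turn_bwd {c c' : Cf Q Γ} (h : M.Step c c') :
    (turn M hp ho hs).Step (liftC false c') (liftC false c) := by
  obtain ⟨i, x, rfl, rfl⟩ := h
  exact ⟨.inl (.inr i), x, rfl, rfl⟩

lemma turn_turn (k : η) (x : List Γ × List Γ) :
    (turn M hp ho hs).Step (liftC true (build (hp k) x)) (liftC false (build (hp k) x)) :=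
  ⟨.inr k, x, rfl, rfl⟩

lemma turn_fwds {c0 c1 : Cf Q Γ} (h : Relation.ReflTransGen M.Step c0 c1) :
    Relation.ReflTransGen (turn M hp ho hs).Step (liftC true c0) (liftC true c1) := by
  induction h with
  | refl => exact .refl
  | tail _ h1 ih => exact ih.tail (turn_fwd M hp ho hs h1)

lemma turn_bwds {c0 c1 : Cf Q Γ} (h : Relation.ReflTransGen M.Step c0 c1) :
    Relation.ReflTransGen (turn M hp ho hs).Step (liftC false c1) (liftC false c0) := by
  induction h with
  | refl => exact .refl
  | tail _ h1 ih => exact Relation.ReflTransGen.head (turn_bwd M hp ho hs h1) ih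

lemma turn_halts {c0 : Cf Q Γ} {k : η} {x : List Γ × List Γ}
    (h : Relation.ReflTransGen M.Step c0 (build (hp k) x)) :
    Relation.ReflTransGen (turn M hp ho hs).Step (liftC true c0) (liftC false c0) :=
  ((turn_fwds M hp ho hs h).tail (turn_turn M hp ho hs k x)).trans (turn_bwds M hp ho hs h)

/-- the correspondence problem of the machine has a solution iff the machine halts -/
theorem turn_main [Finite Γ] [Finite Q] (c0 : Cf Q Γ) (halts : Prop)
    (hpos : halts → ∃ k x, Relation.ReflTransGen M.Step c0 (build (hp k) x))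
    (hneg : ¬ halts → ∃ c : ℕ → Cf Q Γ, c 0 = c0 ∧ ∀ n, M.Step (c n) (c (n + 1)))
    (hlen : 2 ≤ (turn M hp ho hs).layers.length) :
    (∃ w : List (Tl (turn M hp ho hs).layers ⊕ Bool), w ≠ [] ∧
      (w.map (GG (tlay _) (tg _) ((turn M hp ho hs).rowOf (liftC false c0)))).flatten =
      (w.map (HH (turn M hp ho hs).layers.length (tlay _) (th _)
        ((turn M hp ho hs).rowOf (liftC true c0)))).flatten) ↔ halts := by
  set N := turn M hp ho hs with hN
  have hgood := N.layers_good
  constructor
  · intro hsol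
    by_contra hn
    obtain ⟨c, hc0, hc⟩ := hneg hn
    have hr := reach_of_sol hlen (fun τ => (hgood _ (List.get_mem _ _)).gne _)
      (fun τ => (hgood _ (List.get_mem _ _)).hne _) (by simp [Mach.rowOf, crow, row, mrow])
      (by simp [Mach.rowOf, crow, row, mrow]) hsol
    refine not_reach_of_infinite hgood (by omega) (fun n => N.rowOf (liftC true (c n)))
      (by rw [hc0]) (fun n => N.step_runs (turn_fwd M hp ho hs (hc n))) (fun n h => ?_) hr
    have h2 := N.rowOf_inj h
    have h3 : true = false := congrArg (fun c : Cf (Q × Bool) Γ => c.1.2) h2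
    simp at h3
  · intro hh
    obtain ⟨k, x, hk⟩ := hpos hh
    have h1 := turn_halts M hp ho hs hk
    refine sol_of_reach (reach_of_macro (by omega) ?_)
    have h2 : ∀ c c', Relation.ReflTransGen N.Step c c' →
        Relation.ReflTransGen (Runs N.layers) (N.rowOf c) (N.rowOf c') := by
      intro c c' h
      induction h with
      | refl => exact .refl
      | tail _ h1 ih => exact ih.tail (N.step_runs h1)
    exact h2 _ _ h1

end Turn

end Pool.Agent.Helper79.Pcp
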