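import Pool.Agent.Helper79.PcpFinal

/-!
MP_6f9417_lc: the Post Correspondence Problem for elementary homomorphisms, in the words of the problem file, for lists of one
fixed length over one fixed finite alphabet.
-/

set_option autoImplicit false

namespace Pool.Agent.Helper79.PcpOwn

/-- The homomorphism of the free monoids `A* → B*` with `a ↦ u a`. -/
def hom {A B : Type} (u : A → List B) : FreeMonoid A →* FreeMonoid B :=
  FreeMonoid.lift fun a => FreeMonoid.ofList (u a)

/-- A homomorphism is nonerasing if the image of every letter is not the empty word. -/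
def Nonerasing {A B : Type} (h : FreeMonoid A →* FreeMonoid B) : Prop := ∀ a : A, h (FreeMonoid.of a) ≠ 1

/-- A homomorphism `h : A* → B*` is simplifiable if there are a finite nonempty alphabet `C` with fewer letters than `A` and
homomorphisms `f : A* → C*`, `k : C* → B*` with `h = k ∘ f`. -/
def Simplifiable {A B : Type} (h : FreeMonoid A →* FreeMonoid B) : Prop :=
  ∃ C : Type, Finite C ∧ Nonempty C ∧ Nat.card C < Nat.card A ∧
    ∃ (f : FreeMonoid A →* FreeMonoid C) (k : FreeMonoid C →* FreeMonoid B), h = k.comp f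

/-- A homomorphism is elementary if it is not simplifiable. -/
def Elementary {A B : Type} (h : FreeMonoid A →* FreeMonoid B) : Prop := ¬ Simplifiable h

/-- The equality set of two homomorphisms. -/
def EqSet {A B : Type} (g h : FreeMonoid A →* FreeMonoid B) : Set (FreeMonoid A) := {w | g w = h w}

lemma toList_hom_apply {A B : Type} (k : FreeMonoid A →* FreeMonoid B) (w : FreeMonoid A) :
    (k w).toList = (w.toList.map fun a => (k (FreeMonoid.of a)).toList).flatten := by
  induction w using FreeMonoid.recOn with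
  | one => rw [map_one]; rfl
  | of_mul x xs ih => rw [map_mul, FreeMonoid.toList_mul, ih]; rfl

lemma hom_of {A B : Type} (u : A → List B) (a : A) : (hom u (FreeMonoid.of a)).toList = u a := by
  unfold hom
  rw [FreeMonoid.lift_eval_of, FreeMonoid.toList_ofList]

lemma toList_hom {A B : Type} (u : A → List B) (w : FreeMonoid A) :
    (hom u w).toList = (w.toList.map u).flatten := by
  rw [toList_hom_apply, List.map_congr_left fun a _ => hom_of u a]

lemma nonerasing_hom {A B : Type} (u : A → List B) (hu : ∀ a, u a ≠ []) : Nonerasing (hom u) := by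
  intro a h
  apply hu a
  rw [← hom_of u a, h]
  rfl

lemma eqSet_ne {A B : Type} (u v : A → List B) :
    EqSet (hom u) (hom v) ≠ {1} ↔ ∃ w : List A, w ≠ [] ∧ (w.map u).flatten = (w.map v).flatten := by
  constructor
  · intro h
    by_contra hcon
    apply h
    ext w
    rw [Set.mem_singleton_iff]
    constructor
    · intro hw
      by_contra hne
      refine hcon ⟨w.toList, fun h0 => hne ?_, ?_⟩
      · exact FreeMonoid.toList.injective h0
      · rw [← toList_hom, ← toList_hom]
        exact congrArg FreeMonoid.toList hw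
    · rintro rfl
      show hom u 1 = hom v 1
      rw [map_one, map_one]
  · rintro ⟨w, hw, heq⟩ h
    have h1 : FreeMonoid.ofList w ∈ EqSet (hom u) (hom v) := by
      show hom u _ = hom v _
      apply FreeMonoid.toList.injective
      rw [toList_hom, toList_hom]
      exact heq
    rw [h, Set.mem_singleton_iff] at h1
    apply hw
    exact congrArg FreeMonoid.toList h1

/-- private letters make a homomorphism elementary -/
lemma elementary_hom {A B : Type} [Finite A] (u : A → List B) (p : A → B) (h1 : ∀ i, p i ∈ u i)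
    (h2 : ∀ i j, i ≠ j → ¬ (p i ∈ u j ∧ p j ∈ u i)) : Elementary (hom u) := by
  rintro ⟨C, hC, _, hcard, f, k, hfk⟩
  have hu : ∀ i, u i = ((f (FreeMonoid.of i)).toList.map fun c => (k (FreeMonoid.of c)).toList).flatten := by
    intro i
    rw [← hom_of u i, hfk, MonoidHom.comp_apply, toList_hom_apply]
  have hex : ∀ i : A, ∃ c : C, c ∈ (f (FreeMonoid.of i)).toList ∧ p i ∈ (k (FreeMonoid.of c)).toList := by
    intro i
    have h3 := h1 i
    rw [hu i, List.mem_flatten] at h3
    obtain ⟨l, hl, hpl⟩ := h3
    obtain ⟨c, hc, rfl⟩ := List.mem_map.1 hl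
    exact ⟨c, hc, hpl⟩
  choose c hc hpc using hex
  have hinj : Function.Injective c := by
    intro i j hij
    by_contra hne
    refine h2 i j hne ⟨?_, ?_⟩
    · rw [hu j, List.mem_flatten]
      exact ⟨_, List.mem_map.2 ⟨c j, hc j, rfl⟩, hij ▸ hpc i⟩
    · rw [hu i, List.mem_flatten]
      exact ⟨_, List.mem_map.2 ⟨c i, hc i, rfl⟩, hij ▸ hpc j⟩
  exact absurd (Nat.card_le_card_of_injective c hinj) (by omega)

section conv

variable {I X : Type} {n s : ℕ} (e : Fin n ≃ I) (A B : I → List X) (enc : X → Fin s) (dec : Fin s → X)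

/-- conversion of index types and letters -/
lemma sol_conv (hA : ∀ i, ∀ y ∈ A i, dec (enc y) = y) (hB : ∀ i, ∀ y ∈ B i, dec (enc y) = y) :
    EqSet (hom fun i => (A (e i)).map enc) (hom fun i => (B (e i)).map enc) ≠ {1} ↔
    ∃ w : List I, w ≠ [] ∧ (w.map A).flatten = (w.map B).flatten := by
  rw [eqSet_ne]
  have hmap : ∀ (D : I → List X) (w : List (Fin n)), (w.map fun i => (D (e i)).map enc).flatten =
      (((w.map e).map D).flatten).map enc := by
    intro D w
    rw [List.map_flatten, List.map_map, List.map_map]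
    rfl
  have hback : ∀ (D : I → List X), (∀ i, ∀ y ∈ D i, dec (enc y) = y) → ∀ w : List I,
      (((w.map D).flatten).map enc).map dec = (w.map D).flatten := by
    intro D hD w
    rw [List.map_map]
    conv_rhs => rw [← List.map_id ((w.map D).flatten)]
    apply List.map_congr_left
    intro y hy
    obtain ⟨l, hl, hyl⟩ := List.mem_flatten.1 hy
    obtain ⟨i, _, rfl⟩ := List.mem_map.1 hl
    exact hD i y hyl
  constructor
  · rintro ⟨w, hw, heq⟩
    refine ⟨w.map e, by simpa using hw, ?_⟩
    rw [hmap, hmap] at heq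
    rw [← hback A hA, ← hback B hB, heq]
  · rintro ⟨w, hw, heq⟩
    refine ⟨w.map e.symm, by simpa using hw, ?_⟩
    rw [hmap, hmap]
    have h1 : (w.map e.symm).map e = w := by
      rw [List.map_map]
      simp
    rw [h1, heq]

lemma elem_conv (hA : ∀ i, ∀ y ∈ A i, dec (enc y) = y) (hP : Pool.Agent.Helper79.Pcp.Layer.Priv A) :
    Elementary (hom fun i => (A (e i)).map enc) := by
  obtain ⟨p, hp1, hp2⟩ := hP
  have hmem : ∀ i j, enc (p i) ∈ (A j).map enc → p i ∈ A j := by
    intro i j h
    obtain ⟨a, ha, ha'⟩ := List.mem_map.1 h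
    have h1 := congrArg dec ha'
    rw [hA j a ha, hA i (p i) (hp1 i)] at h1
    rw [← h1]
    exact ha
  refine elementary_hom _ (fun i => enc (p (e i))) (fun i => List.mem_map.2 ⟨_, hp1 _, rfl⟩) ?_
  rintro i j hij ⟨h1, h2⟩
  exact hp2 (e i) (e j) (fun h => hij (e.injective h)) ⟨hmem _ _ h1, hmem _ _ h2⟩

end conv

open Turing PartrecToTM2 Pool.Agent.Helper79.Pcp

/-- All letters of the tiles lie in finitely many layers. -/
lemma tag_low {L : Type} {t p : ℕ} (ht : t < p) (w : List L) :
    ∀ y ∈ tag t w, (∃ x, y = Sum.inl x ∧ x.1 < p) ∨ ∃ b, y = Sum.inr b := by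
  intro y hy
  obtain ⟨x, _, rfl⟩ := List.mem_map.1 hy
  exact Or.inl ⟨(t, x), rfl, ht⟩

lemma GG_low {L T : Type} {p : ℕ} (hp : 0 < p) (lay : T → ℕ) (hlay : ∀ τ, lay τ < p) (g : T → List L)
    (Rf : List L) : ∀ i, ∀ y ∈ GG lay g Rf i, (∃ x, y = Sum.inl x ∧ x.1 < p) ∨ ∃ b, y = Sum.inr b := by
  rintro (τ | (_ | _)) y hy
  · exact tag_low (hlay τ) _ y hy
  · exact Or.inr ⟨false, List.mem_singleton.1 hy⟩
  · rcases List.mem_append.1 hy with hy | hy
    · exact tag_low hp _ y hy
    · exact Or.inr ⟨true, List.mem_singleton.1 hy⟩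

lemma HH_low {L T : Type} {p : ℕ} (hp : 0 < p) (lay : T → ℕ) (hlay : ∀ τ, lay τ < p) (h : T → List L)
    (R0 : List L) : ∀ i, ∀ y ∈ HH p lay h R0 i, (∃ x, y = Sum.inl x ∧ x.1 < p) ∨ ∃ b, y = Sum.inr b := by
  rintro (τ | (_ | _)) y hy
  · refine tag_low ?_ _ y hy
    have := hlay τ
    unfold nxt
    split <;> omega
  · rcases List.mem_cons.1 hy with hy | hy
    · exact Or.inr ⟨false, hy⟩
    · exact tag_low hp _ y hy
  · exact Or.inr ⟨true, List.mem_singleton.1 hy⟩

lemma primrec_trNat' {σ : Type} [Primcodable σ] (ψ : Γ' → σ) : Primrec fun n => (trNat n).map ψ := by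
  have h : Primrec₂ (fun (_ : Unit) (n : ℕ) => (trNat n).map ψ) := by
    refine Primrec.nat_strong_rec _ (g := fun _ l => some (if l.length = 0 then [] else
      (cond l.length.bodd (ψ Γ'.bit1) (ψ Γ'.bit0)) :: (l.getD l.length.div2 []))) ?_ ?_
    · have hl : Primrec fun p : Unit × List (List σ) => p.2.length :=
        Primrec.list_length.comp (Primrec.snd (α := Unit) (β := List (List σ)))
      have h1 : PrimrecPred fun p : Unit × List (List σ) => p.2.length = 0 :=
        Primrec.eq.comp hl (Primrec.const 0)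
      have h2 : Primrec fun p : Unit × List (List σ) =>
          (cond p.2.length.bodd (ψ Γ'.bit1) (ψ Γ'.bit0)) :: (p.2.getD p.2.length.div2 []) := by
        refine Primrec.list_cons.comp ?_ ?_
        · exact Primrec.cond (Primrec.nat_bodd.comp hl) (Primrec.const _) (Primrec.const _)
        · exact (Primrec.list_getD []).comp Primrec.snd (Primrec.nat_div2.comp hl)
      have h3 : Primrec fun p : Unit × List (List σ) => (if p.2.length = 0 then [] else
          (cond p.2.length.bodd (ψ Γ'.bit1) (ψ Γ'.bit0)) :: (p.2.getD p.2.length.div2 [])) :=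
        Primrec.ite h1 (Primrec.const []) h2
      exact (Primrec.option_some.comp h3).to₂
    · intro _ n
      simp only [List.length_map, List.length_range]
      by_cases hn : n = 0
      · subst hn
        simp
      · rw [if_neg hn]
        have h1 : n.div2 < n := by
          rw [Nat.div2_val]
          omega
        rw [List.getD_eq_getElem _ _ (by simpa using h1)]
        simp only [List.getElem_map, List.getElem_range]
        rw [trNat_step n hn]
        cases n.bodd <;> rfl
  exact h.comp (Primrec.const ()) Primrec.id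

lemma row_primrec' {Λ0 σ : Type} [Finite Λ0] [Inhabited Λ0] [Primcodable σ]
    (T : Mach (SSt Λ0 G0 × Bool) (SSy Λ0 G0)) (b : Bool)
    (enc : Lt (SSy Λ0 G0) ((SSt Λ0 G0 × Bool) ⊕ T.ρ) → σ) :
    Primrec fun n => (T.rowOf (liftC b (can [] [] default (inp n).headI (inp n).tail))).map enc := by
  have h : ∀ n, (T.rowOf (liftC b (can [] [] default (inp n).headI (inp n).tail))).map enc =
      [enc (.m .beg), enc (.m (.lt .bar)), enc (.m (.st (.inl (.Y, b)))),
        enc (.m (.rt (.marked default (inpL true Γ'.cons))))] ++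
      ((trNat n).map fun a => enc (.m (.rt (.plain (inpL false a))))).reverse ++
      [enc (.m (.rt .bot)), enc (.m .fin)] := by
    intro n
    rw [inp_eq]
    simp [Mach.rowOf, crow, liftC, can, row, mrow, Function.comp_def]
  simp only [h]
  exact Primrec.list_append.comp (Primrec.list_append.comp (Primrec.const _)
    (Primrec.list_reverse.comp (primrec_trNat' _))) (Primrec.const _)

theorem main : ∃ n s : ℕ, 1 ≤ n ∧ 1 ≤ s ∧
    ¬ ∃ F : (Fin n → List (Fin s)) × (Fin n → List (Fin s)) →. Bool, Partrec F ∧
      ∀ u v : Fin n → List (Fin s), Nonerasing (hom u) → Nonerasing (hom v) →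
        Elementary (hom u) → Elementary (hom v) →
        ∃ b ∈ F (u, v), (b = true ↔ EqSet (hom u) (hom v) ≠ {1}) := by
  obtain ⟨Λ0, hfin, hinh, N, hN⟩ := stage3
  let M := simM N
  let T := turn M (haltP N) (haltP_orth N) (haltP_src N)
  let c0 : ℕ → Cf (SSt Λ0 G0) (SSy Λ0 G0) :=
    fun n => can [] [] default (inp n).headI (inp n).tail
  let L := Lt (SSy Λ0 G0) ((SSt Λ0 G0 × Bool) ⊕ T.ρ)
  let A : ℕ → (Tl T.layers ⊕ Bool) → List (Ltr L) :=
    fun n => GG (tlay T.layers) (tg T.layers) (T.rowOf (liftC false (c0 n)))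
  let B : ℕ → (Tl T.layers ⊕ Bool) → List (Ltr L) :=
    fun n => HH T.layers.length (tlay T.layers) (th T.layers) (T.rowOf (liftC true (c0 n)))
  have hρ : Finite T.ρ := T.fin
  have hgood := T.layers_good
  have hfι : ∀ i, Finite (T.layers.get i).ι := fun i => (hgood _ (List.get_mem _ i)).fin
  have hfI : Finite (Tl T.layers ⊕ Bool) := inferInstance
  have hlen : 2 ≤ T.layers.length := two_le_layers T (.inl (.inl ⟨_, IsRule.bar⟩))
  have hlay : ∀ τ : Tl T.layers, tlay T.layers τ < T.layers.length := fun τ => τ.1.2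
  have hfL : Finite L := inferInstance
  -- the finite alphabet
  obtain ⟨s, ⟨es⟩⟩ := Finite.exists_equiv_fin ((Fin T.layers.length × L) ⊕ Bool)
  let enc : Ltr L → Fin s := fun y => es (match y with
    | Sum.inl x => Sum.inl (⟨x.1 % T.layers.length, Nat.mod_lt _ (by omega)⟩, x.2)
    | Sum.inr b => Sum.inr b)
  let dec : Fin s → Ltr L := fun z => match es.symm z with
    | Sum.inl x => Sum.inl (x.1.1, x.2)
    | Sum.inr b => Sum.inr b
  have hdec : ∀ y : Ltr L, ((∃ x, y = Sum.inl x ∧ x.1 < T.layers.length) ∨ ∃ b, y = Sum.inr b) →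
      dec (enc y) = y := by
    rintro y (⟨x, rfl, hx⟩ | ⟨b, rfl⟩)
    · simp only [dec, enc, Equiv.symm_apply_apply, Nat.mod_eq_of_lt hx]
    · simp only [dec, enc, Equiv.symm_apply_apply]
  have hA : ∀ n i, ∀ y ∈ A n i, dec (enc y) = y := fun n i y hy =>
    hdec y (GG_low (by omega) _ hlay _ _ i y hy)
  have hB : ∀ n i, ∀ y ∈ B n i, dec (enc y) = y := fun n i y hy =>
    hdec y (HH_low (by omega) _ hlay _ _ i y hy)
  have hAne : ∀ n i, A n i ≠ [] := by
    rintro n (τ | (_ | _)) h0
    · exact (hgood _ (List.get_mem _ τ.1)).gne τ.2 (List.map_eq_nil_iff.1 h0)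
    · exact absurd h0 (List.cons_ne_nil _ _)
    · exact absurd (List.append_eq_nil_iff.1 h0).2 (List.cons_ne_nil _ _)
  have hBne : ∀ n i, B n i ≠ [] := by
    rintro n (τ | (_ | _)) h0
    · exact (hgood _ (List.get_mem _ τ.1)).hne τ.2 (List.map_eq_nil_iff.1 h0)
    · exact absurd h0 (List.cons_ne_nil _ _)
    · exact absurd h0 (List.cons_ne_nil _ _)
  obtain ⟨N', ⟨e'⟩⟩ := Finite.exists_equiv_fin (Tl T.layers ⊕ Bool)
  let e := e'.symm
  have hs : 1 ≤ s := by
    have : Fin s := es (Sum.inr true)
    exact Nat.one_le_iff_ne_zero.2 fun h => by subst h; exact this.elim0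
  have hn : 1 ≤ N' := by
    have : Fin N' := e' (Sum.inr true)
    exact Nat.one_le_iff_ne_zero.2 fun h => by subst h; exact this.elim0
  let u : ℕ → Fin N' → List (Fin s) := fun n i => (A n (e i)).map enc
  let v : ℕ → Fin N' → List (Fin s) := fun n i => (B n (e i)).map enc
  refine ⟨N', s, hn, hs, ?_⟩
  rintro ⟨F, hF, hcor⟩
  have key : ∀ n, ∃ b ∈ F (u n, v n), (b = true ↔ (StateTransition.eval (TM0.step N)
      (TM0.init (TM2to1.trInit PartrecToTM2.K'.main (PartrecToTM2.trList [n])))).Dom) := by
    intro n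
    obtain ⟨b, hb, hiff⟩ := hcor (u n) (v n)
      (nonerasing_hom _ fun i => by simpa [u] using hAne n (e i))
      (nonerasing_hom _ fun i => by simpa [v] using hBne n (e i))
      (elem_conv e (A n) enc dec (hA n) (priv_GG hgood _))
      (elem_conv e (B n) enc dec (hB n) (priv_HH hgood _))
    refine ⟨b, hb, hiff.trans ((sol_conv e (A n) (B n) enc dec (hA n) (hB n)).trans ?_)⟩
    exact turn_main M (haltP N) _ _ (c0 n) _
      (fun h => sim_halts N [] [] default (inp n).headI (inp n).tail h)
      (fun h => sim_diverges N [] [] default (inp n).headI (inp n).tail h) hlen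
  have hcomp : Computable fun n => (u n, v n) := by
    have hu : Primrec u := by
      refine Primrec.fin_curry.2 (Primrec₂.swap (f := fun (i : Fin N') (n : ℕ) => u n i) (Primrec.fin_curry₁.2 fun i => ?_))
      show Primrec fun n => (A n (e i)).map enc
      rcases e i with τ | (_ | _)
      · exact Primrec.const (List.map enc (A 0 (Sum.inl τ)))
      · exact Primrec.const (List.map enc (A 0 (Sum.inr false)))
      · have h1 := row_primrec' T false fun y => enc (Sum.inl (0, y))
        have h2 : Primrec fun _ : ℕ => [enc (Sum.inr true)] := Primrec.const _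
        refine (Primrec.list_append.comp h1 h2).of_eq fun n => ?_
        simp [A, GG, tag, c0, Function.comp_def]
    have hv : Primrec v := by
      refine Primrec.fin_curry.2 (Primrec₂.swap (f := fun (i : Fin N') (n : ℕ) => v n i) (Primrec.fin_curry₁.2 fun i => ?_))
      show Primrec fun n => (B n (e i)).map enc
      rcases e i with τ | (_ | _)
      · exact Primrec.const (List.map enc (B 0 (Sum.inl τ)))
      · have h1 := row_primrec' T true fun y => enc (Sum.inl (0, y))
        have h2 : Primrec fun _ : ℕ => enc (Sum.inr false) := Primrec.const _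
        refine (Primrec.list_cons.comp h2 h1).of_eq fun n => ?_
        simp [B, HH, tag, c0, Function.comp_def]
      · exact Primrec.const (List.map enc (B 0 (Sum.inr true)))
    exact (Primrec.pair hu hv).to_comp
  choose f hf1 hf2 using key
  have hG : Computable f := (hF.comp hcomp).of_eq_tot hf1
  apply hN
  refine ComputablePred.computable_iff.2 ⟨f, hG, ?_⟩
  funext n
  exact propext (hf2 n).symm

end Pool.Agent.Helper79.PcpOwn
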