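import Pool.Agent.Helper79.PcpMachine

/-! # Simulation of Turing machines -/

set_option autoImplicit false

namespace Pool.Agent.Helper79.Pcp

open Relation

/-! ### patterns -/

lemma comp_ss {Q Γ : Type} (s s' : Q) (b b' : Bool) (v v' : Γ) :
    ¬ Orth (s, some (b, v)) (s', some (b', v')) ↔ s = s' ∧ (b = b' → v = v') := by
  unfold Orth
  constructor
  · intro h
    constructor
    · by_contra h1
      exact h (Or.inl h1)
    · rintro rfl
      by_contra h1
      exact h (Or.inr ⟨b, v, v', rfl, rfl, h1⟩)
  · rintro ⟨rfl, h2⟩ (h | ⟨c, w, w', h3, h4, h5⟩)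
    · exact h rfl
    · simp only [Option.some.injEq, Prod.mk.injEq] at h3 h4
      obtain ⟨rfl, rfl⟩ := h3
      obtain ⟨h6, rfl⟩ := h4
      exact h5 (h2 h6.symm)

lemma comp_ns {Q Γ : Type} (s s' : Q) (o : Option (Bool × Γ)) :
    ¬ Orth (s, none) (s', o) ↔ s = s' := by
  unfold Orth
  constructor
  · intro h
    by_contra h1
    exact h (Or.inl h1)
  · rintro rfl (h | ⟨c, w, w', h3, h4, h5⟩)
    · exact h rfl
    · simp at h3

lemma comp_sn {Q Γ : Type} (s s' : Q) (o : Option (Bool × Γ)) :
    ¬ Orth (s, o) (s', none) ↔ s = s' := by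
  have h := comp_ns (Γ := Γ) s' s o
  constructor
  · intro h0
    exact (h.1 (fun h' => h0 h'.symm)).symm
  · intro h0 h'
    exact h.2 h0.symm h'.symm

/-- states of the simulating machine -/
inductive SSt (Λ Γ : Type) where
  | Y : SSt Λ Γ
  | X : Λ → Γ → Bool → SSt Λ Γ
  | Z : Λ → Γ → SSt Λ Γ
  | Z' : Λ → Γ → SSt Λ Γ
  | W : Λ → Γ → SSt Λ Γ
  | W' : Λ → Γ → SSt Λ Γ
  | V : SSt Λ Γ

/-- letters of the simulating machine -/
inductive SSy (Λ Γ : Type) where
  | plain : Γ → SSy Λ Γ
  | marked : Λ → Γ → SSy Λ Γ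
  | bar : SSy Λ Γ
  | log : Λ → Γ → Bool → SSy Λ Γ
  | bot : SSy Λ Γ

variable {Λ Γ : Type}

/-- auxiliary injection -/
def SSt.enc : SSt Λ Γ → Fin 7 × Option (Λ × Γ) × Bool
  | .Y => (0, none, false)
  | .X q a f => (1, some (q, a), f)
  | .Z q a => (2, some (q, a), false)
  | .Z' q a => (3, some (q, a), false)
  | .W q a => (4, some (q, a), false)
  | .W' q a => (5, some (q, a), false)
  | .V => (6, none, false)

lemma SSt.enc_inj : Function.Injective (SSt.enc (Λ := Λ) (Γ := Γ)) := by
  intro x y h
  cases x <;> cases y <;> simp [SSt.enc] at h <;> simp [h]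

instance [Finite Λ] [Finite Γ] : Finite (SSt Λ Γ) := Finite.of_injective _ SSt.enc_inj

/-- auxiliary injection -/
def SSy.enc : SSy Λ Γ → Fin 5 × Option Λ × Option Γ × Bool
  | .plain a => (0, none, some a, false)
  | .marked q a => (1, some q, some a, false)
  | .bar => (2, none, none, false)
  | .log q a f => (3, some q, some a, f)
  | .bot => (4, none, none, false)

lemma SSy.enc_inj : Function.Injective (SSy.enc (Λ := Λ) (Γ := Γ)) := by
  intro x y h
  cases x <;> cases y <;> simp [SSy.enc] at h <;> simp [h]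

instance [Finite Λ] [Finite Γ] : Finite (SSy Λ Γ) := Finite.of_injective _ SSy.enc_inj

open Turing

variable [Inhabited Λ] [Inhabited Γ]

/-- the rules -/
inductive IsRule (M : TM0.Machine Γ Λ) :
    Pat (SSt Λ Γ) (SSy Λ Γ) × Pat (SSt Λ Γ) (SSy Λ Γ) → Prop
  | scan (u : Γ) : IsRule M ((.Y, some (true, .plain u)), (.Y, some (false, .plain u)))
  | wr (q : Λ) (a : Γ) (q' : Λ) (b : Γ) (h : M q a = some (q', .write b)) :
      IsRule M ((.Y, some (true, .marked q a)), (.X q a false, some (true, .marked q' b)))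
  | rgt (q : Λ) (a : Γ) (q' : Λ) (h : M q a = some (q', .move .right)) :
      IsRule M ((.Y, some (true, .marked q a)), (.Z q a, some (false, .plain a)))
  | lft (q : Λ) (a : Γ) (q' : Λ) (h : M q a = some (q', .move .left)) :
      IsRule M ((.Y, some (true, .marked q a)), (.W q a, some (true, .plain a)))
  | rgt1 (q : Λ) (a : Γ) (q' : Λ) (u : Γ) (h : M q a = some (q', .move .right)) :
      IsRule M ((.Z q a, some (true, .plain u)), (.X q a false, some (true, .marked q' u)))
  | rgt2 (q : Λ) (a : Γ) (q' : Λ) (h : M q a = some (q', .move .right)) :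
      IsRule M ((.Z q a, some (true, .bot)), (.Z' q a, some (true, .bot)))
  | rgt3 (q : Λ) (a : Γ) (q' : Λ) (h : M q a = some (q', .move .right)) :
      IsRule M ((.Z' q a, none), (.X q a true, some (true, .marked q' default)))
  | lft1 (q : Λ) (a : Γ) (q' : Λ) (u : Γ) (h : M q a = some (q', .move .left)) :
      IsRule M ((.W q a, some (false, .plain u)), (.X q a false, some (true, .marked q' u)))
  | lft2 (q : Λ) (a : Γ) (q' : Λ) (h : M q a = some (q', .move .left)) :
      IsRule M ((.W q a, some (false, .bar)), (.W' q a, some (false, .bar)))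
  | lft3 (q : Λ) (a : Γ) (q' : Λ) (h : M q a = some (q', .move .left)) :
      IsRule M ((.W' q a, none), (.X q a true, some (true, .marked q' default)))
  | back (q : Λ) (a : Γ) (f : Bool) (u : Γ) :
      IsRule M ((.X q a f, some (false, .plain u)), (.X q a f, some (true, .plain u)))
  | log (q : Λ) (a : Γ) (f : Bool) :
      IsRule M ((.X q a f, some (false, .bar)), (.V, some (false, .log q a f)))
  | bar : IsRule M ((.V, none), (.Y, some (false, .bar)))

lemma rule_src (M : TM0.Machine Γ Λ) (x y : Pat (SSt Λ Γ) (SSy Λ Γ) × Pat (SSt Λ Γ) (SSy Λ Γ))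
    (hx : IsRule M x) (hy : IsRule M y) (h : ¬ Orth x.1 y.1) : x = y := by
  cases hx <;> cases hy <;> simp only [comp_ss, comp_ns, comp_sn] at h <;> simp at h ⊢ <;>
    simp_all

lemma rule_tgt (M : TM0.Machine Γ Λ) (x y : Pat (SSt Λ Γ) (SSy Λ Γ) × Pat (SSt Λ Γ) (SSy Λ Γ))
    (hx : IsRule M x) (hy : IsRule M y) (h : ¬ Orth x.2 y.2) : x = y := by
  cases hx <;> cases hy <;> simp only [comp_ss] at h <;> simp at h ⊢ <;>
    simp_all

/-- the simulating machine -/
def simM (M : TM0.Machine Γ Λ) [Finite Λ] [Finite Γ] : Mach (SSt Λ Γ) (SSy Λ Γ) where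
  ρ := {x : Pat (SSt Λ Γ) (SSy Λ Γ) × Pat (SSt Λ Γ) (SSy Λ Γ) // IsRule M x}
  fin := inferInstance
  src := fun x => x.1.1
  tgt := fun x => x.1.2
  osrc := fun x y hxy => by
    by_contra h
    exact hxy (Subtype.ext (rule_src M x.1 y.1 x.2 y.2 h))
  otgt := fun x y hxy => by
    by_contra h
    exact hxy (Subtype.ext (rule_tgt M x.1 y.1 x.2 y.2 h))

/-- halting patterns -/
def haltP (M : TM0.Machine Γ Λ) (p : {p : Λ × Γ // M p.1 p.2 = none}) :
    Pat (SSt Λ Γ) (SSy Λ Γ) := (.Y, some (true, .marked p.1.1 p.1.2))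

lemma haltP_orth (M : TM0.Machine Γ Λ) (i j : {p : Λ × Γ // M p.1 p.2 = none}) (h : i ≠ j) :
    Orth (haltP M i) (haltP M j) := by
  by_contra h1
  unfold haltP at h1
  rw [comp_ss] at h1
  simp only [SSy.marked.injEq, true_imp_iff, true_and] at h1
  exact h (Subtype.ext (Prod.ext h1.1 h1.2))

variable [Finite Λ] [Finite Γ]

lemma haltP_src (M : TM0.Machine Γ Λ) (i : {p : Λ × Γ // M p.1 p.2 = none}) (j : (simM M).ρ) :
    Orth (haltP M i) ((simM M).src j) := by
  obtain ⟨⟨q, a⟩, hi⟩ := i
  obtain ⟨y, hy⟩ := j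
  by_contra h1
  change ¬ Orth (SSt.Y, some (true, SSy.marked q a)) y.1 at h1
  simp only at hi
  cases hy <;> simp only [comp_ss, comp_sn] at h1 <;> simp at h1 <;> simp_all

section Run

variable (M : TM0.Machine Γ Λ)

lemma simM_step {p p' : Pat (SSt Λ Γ) (SSy Λ Γ)} (h : IsRule M (p, p'))
    (x : List (SSy Λ Γ) × List (SSy Λ Γ)) : (simM M).Step (build p x) (build p' x) :=
  ⟨⟨(p, p'), h⟩, x, rfl, rfl⟩

lemma scan_run (K : List Γ) : ∀ (l r : List (SSy Λ Γ)),
    ReflTransGen (simM M).Step (SSt.Y, l, K.map SSy.plain ++ r)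
      (SSt.Y, (K.map SSy.plain).reverse ++ l, r) := by
  induction K with
  | nil => intro l r; exact .refl
  | cons u K ih =>
    intro l r
    have h1 : (simM M).Step (SSt.Y, l, (u :: K).map SSy.plain ++ r)
        (SSt.Y, SSy.plain u :: l, K.map SSy.plain ++ r) := by
      have h0 := simM_step M (.scan u) (l, K.map SSy.plain ++ r)
      exact h0
    refine ReflTransGen.head h1 ?_
    have := ih (SSy.plain u :: l) r
    simpa using this

lemma back_run (q : Λ) (a : Γ) (f : Bool) (K : List Γ) : ∀ (l r : List (SSy Λ Γ)),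
    ReflTransGen (simM M).Step (SSt.X q a f, K.map SSy.plain ++ l, r)
      (SSt.X q a f, l, (K.map SSy.plain).reverse ++ r) := by
  induction K with
  | nil => intro l r; exact .refl
  | cons u K ih =>
    intro l r
    have h1 : (simM M).Step (SSt.X q a f, (u :: K).map SSy.plain ++ l, r)
        (SSt.X q a f, K.map SSy.plain ++ l, SSy.plain u :: r) := by
      have h0 := simM_step M (.back q a f u) (K.map SSy.plain ++ l, r)
      exact h0
    refine ReflTransGen.head h1 ?_
    have := ih l (SSy.plain u :: r)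
    simpa using this

lemma home_run (q : Λ) (a : Γ) (f : Bool) (L : List Γ) (hist r : List (SSy Λ Γ)) :
    ReflTransGen (simM M).Step (SSt.X q a f, L.map SSy.plain ++ SSy.bar :: hist, r)
      (SSt.Y, L.map SSy.plain ++ SSy.bar :: SSy.log q a f :: hist, r) := by
  have h1 := back_run M q a f L (SSy.bar :: hist) r
  have h2 := simM_step M (.log q a f) (hist, (L.map SSy.plain).reverse ++ r)
  have h3 := simM_step M .bar (SSy.log q a f :: hist, (L.map SSy.plain).reverse ++ r)
  have h4 := scan_run M L.reverse (SSy.bar :: SSy.log q a f :: hist) r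
  have h5 : ((L.reverse.map (SSy.plain (Λ := Λ))).reverse : List (SSy Λ Γ)) = L.map SSy.plain := by
    simp
  have h6 : ((L.map (SSy.plain (Λ := Λ))).reverse : List (SSy Λ Γ)) = L.reverse.map SSy.plain := by
    simp
  rw [h5] at h4
  rw [h6] at h1 h2 h3
  exact ((h1.tail h2).tail h3).trans h4

/-- canonical configurations -/
def can (hist : List (SSy Λ Γ)) (L : List Γ) (q : Λ) (a : Γ) (R : List Γ) :
    Cf (SSt Λ Γ) (SSy Λ Γ) :=
  (.Y, L.map .plain ++ .bar :: hist, .marked q a :: (R.map .plain ++ [.bot]))

/-- tapes from lists -/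
def tp (L : List Γ) (a : Γ) (R : List Γ) : Tape Γ := ⟨a, ListBlank.mk L, ListBlank.mk R⟩

lemma sim_step (hist : List (SSy Λ Γ)) (L : List Γ) (q : Λ) (a : Γ) (R : List Γ)
    (c' : TM0.Cfg Γ Λ) (h : TM0.step M ⟨q, tp L a R⟩ = some c') :
    ∃ hist' L' a' R', c'.Tape = tp L' a' R' ∧
      TransGen (simM M).Step (can hist L q a R) (can hist' L' c'.q a' R') := by
  unfold TM0.step at h
  rcases hM : M q a with _ | ⟨q', s⟩
  · simp [tp, hM] at h
  · simp only [tp, hM, Option.map_some, Option.some.injEq] at h
    rcases s with d | b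
    · rcases d with _ | _
      · -- left
        have k1 := simM_step M (.lft q a q' hM)
          (L.map .plain ++ .bar :: hist, R.map .plain ++ [.bot])
        cases L with
        | nil =>
          have k2 := simM_step M (.lft2 q a q' hM)
            (hist, .plain a :: (R.map .plain ++ [.bot]))
          have k3 := simM_step M (.lft3 q a q' hM)
            (.bar :: hist, .plain a :: (R.map .plain ++ [.bot]))
          have k4 := home_run M q a true [] hist
            (.marked q' default :: .plain a :: (R.map .plain ++ [.bot]))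
          refine ⟨SSy.log q a true :: hist, [], default, a :: R, ?_, ?_⟩
          · rw [← h]; rfl
          · rw [← h]
            exact TransGen.trans_left (TransGen.single k1)
              ((ReflTransGen.single k2).trans ((ReflTransGen.single k3).trans k4))
        | cons u L =>
          have k2 := simM_step M (.lft1 q a q' u hM)
            (L.map .plain ++ .bar :: hist, .plain a :: (R.map .plain ++ [.bot]))
          have k4 := home_run M q a false L hist
            (.marked q' u :: .plain a :: (R.map .plain ++ [.bot]))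
          refine ⟨SSy.log q a false :: hist, L, u, a :: R, ?_, ?_⟩
          · rw [← h]; rfl
          · rw [← h]
            exact TransGen.trans_left (TransGen.single k1) ((ReflTransGen.single k2).trans k4)
      · -- right
        have k1 := simM_step M (.rgt q a q' hM)
          (L.map .plain ++ .bar :: hist, R.map .plain ++ [.bot])
        cases R with
        | nil =>
          have k2 := simM_step M (.rgt2 q a q' hM)
            (.plain a :: (L.map .plain ++ .bar :: hist), [])
          have k3 := simM_step M (.rgt3 q a q' hM)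
            (.plain a :: (L.map .plain ++ .bar :: hist), [.bot])
          have k4 := home_run M q a true (a :: L) hist (.marked q' default :: [.bot])
          refine ⟨SSy.log q a true :: hist, a :: L, default, [], ?_, ?_⟩
          · rw [← h]; rfl
          · rw [← h]
            exact TransGen.trans_left (TransGen.single k1)
              ((ReflTransGen.single k2).trans ((ReflTransGen.single k3).trans k4))
        | cons u R =>
          have k2 := simM_step M (.rgt1 q a q' u hM)
            (.plain a :: (L.map .plain ++ .bar :: hist), R.map .plain ++ [.bot])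
          have k4 := home_run M q a false (a :: L) hist
            (.marked q' u :: (R.map .plain ++ [.bot]))
          refine ⟨SSy.log q a false :: hist, a :: L, u, R, ?_, ?_⟩
          · rw [← h]; rfl
          · rw [← h]
            exact TransGen.trans_left (TransGen.single k1) ((ReflTransGen.single k2).trans k4)
    · have k1 := simM_step M (.wr q a q' b hM)
        (L.map .plain ++ .bar :: hist, R.map .plain ++ [.bot])
      have k4 := home_run M q a false L hist (.marked q' b :: (R.map .plain ++ [.bot]))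
      refine ⟨SSy.log q a false :: hist, L, b, R, ?_, ?_⟩
      · rw [← h]; rfl
      · rw [← h]
        exact TransGen.trans_left (TransGen.single k1) k4

lemma sim_reaches {c c' : TM0.Cfg Γ Λ} (h : StateTransition.Reaches (TM0.step M) c c') :
    ∀ (hist : List (SSy Λ Γ)) (L : List Γ) (a : Γ) (R : List Γ), c.Tape = tp L a R →
    ∃ hist' L' a' R', c'.Tape = tp L' a' R' ∧
      ReflTransGen (simM M).Step (can hist L c.q a R) (can hist' L' c'.q a' R') := by
  intro hist L a R hc
  induction h with
  | refl => exact ⟨hist, L, a, R, hc, .refl⟩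
  | @tail d e _ hstep ih =>
    obtain ⟨hist1, L1, a1, R1, h1, h2⟩ := ih
    obtain ⟨q, T⟩ := d
    simp only at h1
    subst h1
    obtain ⟨hist2, L2, a2, R2, h3, h4⟩ := sim_step M hist1 L1 q a1 R1 e hstep
    exact ⟨hist2, L2, a2, R2, h3, h2.trans h4.to_reflTransGen⟩

lemma sim_halts (hist : List (SSy Λ Γ)) (L : List Γ) (q : Λ) (a : Γ) (R : List Γ)
    (h : (StateTransition.eval (TM0.step M) ⟨q, tp L a R⟩).Dom) :
    ∃ k x, ReflTransGen (simM M).Step (can hist L q a R) (build (haltP M k) x) := by
  obtain ⟨c, hc⟩ := Part.dom_iff_mem.1 h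
  obtain ⟨h1, h2⟩ := StateTransition.mem_eval.1 hc
  obtain ⟨hist1, L1, a1, R1, h3, h4⟩ := sim_reaches M h1 hist L a R rfl
  obtain ⟨q1, T1⟩ := c
  simp only at h3 h4
  subst h3
  have h5 : M q1 a1 = none := by
    unfold TM0.step at h2
    simpa [tp] using h2
  let x : List (SSy Λ Γ) × List (SSy Λ Γ) :=
    (L1.map SSy.plain ++ SSy.bar :: hist1, R1.map SSy.plain ++ [SSy.bot])
  exact ⟨⟨(q1, a1), h5⟩, x, h4⟩

lemma sim_diverges (hist : List (SSy Λ Γ)) (L : List Γ) (q : Λ) (a : Γ) (R : List Γ)
    (h : ¬ (StateTransition.eval (TM0.step M) ⟨q, tp L a R⟩).Dom) :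
    ∃ c : ℕ → Cf (SSt Λ Γ) (SSy Λ Γ), c 0 = can hist L q a R ∧
      ∀ n, (simM M).Step (c n) (c (n + 1)) := by
  rw [← not_acc_iff_exists_descending_chain (r := fun x y => (simM M).Step y x), ← acc_transGen_iff]
  intro hacc
  have key : ∀ c, Acc (TransGen fun x y => (simM M).Step y x) c →
      ∀ (hist : List (SSy Λ Γ)) (L : List Γ) (q : Λ) (a : Γ) (R : List Γ), c = can hist L q a R →
      (StateTransition.eval (TM0.step M) ⟨q, tp L a R⟩).Dom := by
    intro c hc
    induction hc with
    | intro c _ ih =>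
      intro hist L q a R hcc
      by_contra hn
      rcases hs : TM0.step M ⟨q, tp L a R⟩ with _ | c'
      · exact hn (Part.dom_iff_mem.2 ⟨_, StateTransition.mem_eval.2 ⟨.refl, hs⟩⟩)
      · obtain ⟨hist1, L1, a1, R1, h3, h4⟩ := sim_step M hist L q a R c' hs
        have h5 := ih (can hist1 L1 c'.q a1 R1) (by
          rw [hcc]
          exact transGen_swap.2 h4) hist1 L1 c'.q a1 R1 rfl
        apply hn
        rw [StateTransition.reaches_eval (ReflTransGen.single hs)]
        obtain ⟨q1, T1⟩ := c'
        simp only at h3 h5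
        subst h3
        exact h5
  exact h (key _ hacc hist L q a R rfl)

end Run


end Pool.Agent.Helper79.Pcp
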