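import Pool.Agent.Helper79.PcpSim

/-! # A finite Turing machine with undecidable halting problem -/

set_option autoImplicit false

namespace Pool.Agent.Helper79.Pcp

open Turing

/-- from two-stack programs to finite Turing machines -/
theorem stage {K : Type} [DecidableEq K] {G : K → Type}
    {Λ σ : Type} [Inhabited Λ] [Inhabited σ] [Fintype σ] (M : Λ → TM2.Stmt G Λ σ)
    (S : Finset Λ) (ss : TM2.Supports M S) (k : K) :
    ∃ (Λ0 : Type) (_ : Finite Λ0) (_ : Inhabited Λ0) (N : TM0.Machine (TM2to1.Γ' K G) Λ0),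
      ∀ L, (StateTransition.eval (TM0.step N) (TM0.init (TM2to1.trInit k L))).Dom ↔
        (TM2.eval M k L).Dom := by
  classical
  let M1 := TM2to1.tr M
  have ss1 : TM1.Supports M1 (TM2to1.trSupp M S) := TM2to1.tr_supports M ss
  let M0 := TM1to0.tr M1
  let S0 := TM1to0.trStmts M1 (TM2to1.trSupp M S)
  have ss0 : TM0.Supports M0 (S0 : Set (TM1to0.Λ' M1)) := TM1to0.tr_supports M1 ss1
  let Λ0 := {q // q ∈ S0}
  let _ : Inhabited Λ0 := ⟨⟨default, ss0.1⟩⟩
  let idp : PointedMap (TM2to1.Γ' K G) (TM2to1.Γ' K G) := ⟨id, rfl⟩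
  let g1 : PointedMap (TM1to0.Λ' M1) Λ0 :=
    ⟨fun q => if h : q ∈ S0 then ⟨q, h⟩ else default, by
      have h0 : default ∈ S0 := ss0.1
      rw [dif_pos h0]
      rfl⟩
  let g2 : Λ0 → TM1to0.Λ' M1 := Subtype.val
  let N := TM0.Machine.map M0 idp idp g1 g2
  refine ⟨Λ0, inferInstance, inferInstance, N, fun L => ?_⟩
  have hr : StateTransition.Respects (TM0.step M0) (TM0.step N)
      (fun a b => a.q ∈ (S0 : Set (TM1to0.Λ' M1)) ∧ TM0.Cfg.map idp g1 a = b) :=
    TM0.Machine.map_respects M0 idp idp g1 g2 ss0 (fun x => rfl) (fun q hq => by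
      have hq' : q ∈ S0 := hq
      change ((if h : q ∈ S0 then (⟨q, h⟩ : Λ0) else default) : Λ0).1 = q
      rw [dif_pos hq'])
  have h1 := StateTransition.tr_eval_dom hr (a₁ := TM0.init (TM2to1.trInit k L))
    (a₂ := TM0.init (TM2to1.trInit k L)) ⟨ss0.1, by
      rw [TM0.map_init]
      congr 1
      exact List.map_id _⟩
  rw [h1]
  have h2 : (TM0.eval M0 (TM2to1.trInit k L)).Dom ↔ (TM2.eval M k L).Dom := by
    rw [TM1to0.tr_eval]
    exact TM2to1.tr_eval_dom M k L
  exact h2

instance : Fintype PartrecToTM2.K' :=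
  ⟨{.main, .rev, .aux, .stack}, by intro x; cases x <;> simp⟩

/-- finite Turing machines for codes -/
theorem stage2 (c : ToPartrec.Code) :
    ∃ (Λ0 : Type) (_ : Finite Λ0) (_ : Inhabited Λ0)
      (N : TM0.Machine (TM2to1.Γ' PartrecToTM2.K' fun _ => PartrecToTM2.Γ') Λ0),
      ∀ v, (StateTransition.eval (TM0.step N)
        (TM0.init (TM2to1.trInit PartrecToTM2.K'.main (PartrecToTM2.trList v)))).Dom ↔
        (c.eval v).Dom := by
  let _ : Inhabited PartrecToTM2.Λ' := ⟨PartrecToTM2.trNormal c PartrecToTM2.Cont'.halt⟩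
  obtain ⟨Λ0, h1, h2, N, hN⟩ := @stage PartrecToTM2.K' _ (fun _ => PartrecToTM2.Γ')
    PartrecToTM2.Λ' (Option PartrecToTM2.Γ') _ _ _ PartrecToTM2.tr
    (PartrecToTM2.codeSupp c PartrecToTM2.Cont'.halt)
    (PartrecToTM2.tr_supports c PartrecToTM2.Cont'.halt) PartrecToTM2.K'.main
  refine ⟨Λ0, h1, h2, N, fun v => (hN _).trans ?_⟩
  have h3 : TM2.init PartrecToTM2.K'.main (PartrecToTM2.trList v) = PartrecToTM2.init c v := by
    unfold TM2.init PartrecToTM2.init
    congr 1
    funext x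
    cases x <;> rfl
  have h4 := PartrecToTM2.tr_eval c v
  change (StateTransition.eval (TM2.step PartrecToTM2.tr)
    (TM2.init PartrecToTM2.K'.main (PartrecToTM2.trList v))).Dom ↔ _
  rw [h3, h4]
  rfl

/-- a finite Turing machine with undecidable halting problem -/
theorem stage3 :
    ∃ (Λ0 : Type) (_ : Finite Λ0) (_ : Inhabited Λ0)
      (N : TM0.Machine (TM2to1.Γ' PartrecToTM2.K' fun _ => PartrecToTM2.Γ') Λ0),
      ¬ ComputablePred fun n : ℕ => (StateTransition.eval (TM0.step N)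
        (TM0.init (TM2to1.trInit PartrecToTM2.K'.main (PartrecToTM2.trList [n])))).Dom := by
  have hf : Partrec fun n : ℕ => Nat.Partrec.Code.eval (Denumerable.ofNat Nat.Partrec.Code n) 0 :=
    Nat.Partrec.Code.eval_part.comp (Computable.ofNat _) (Computable.const 0)
  obtain ⟨c, hc⟩ := ToPartrec.Code.exists_code (Nat.Partrec'.part_iff₁.2 hf)
  obtain ⟨Λ0, h1, h2, N, hN⟩ := stage2 c
  refine ⟨Λ0, h1, h2, N, fun hcon => ?_⟩
  have key : ∀ n : ℕ, (StateTransition.eval (TM0.step N)
        (TM0.init (TM2to1.trInit PartrecToTM2.K'.main (PartrecToTM2.trList [n])))).Dom ↔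
        (Nat.Partrec.Code.eval (Denumerable.ofNat Nat.Partrec.Code n) 0).Dom := by
    intro n
    have h3 := hc (n ::ᵥ List.Vector.nil)
    rw [hN [n]]
    have h4 : (n ::ᵥ List.Vector.nil : List.Vector ℕ 1).1 = [n] := rfl
    rw [h4] at h3
    rw [h3]
    rfl
  have h5 : ComputablePred fun c : Nat.Partrec.Code => (Nat.Partrec.Code.eval c 0).Dom := by
    obtain ⟨f, hf1, hf2⟩ := ComputablePred.computable_iff.1 hcon
    refine ComputablePred.computable_iff.2
      ⟨fun c => f (Encodable.encode c), hf1.comp Computable.encode, ?_⟩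
    funext c
    have h6 := congrFun hf2 (Encodable.encode c)
    have h7 := key (Encodable.encode c)
    rw [Denumerable.ofNat_encode] at h7
    exact (propext h7).symm.trans h6
  exact ComputablePred.halting_problem 0 h5

end Pool.Agent.Helper79.Pcp
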